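import Pool.Agent.KD.V4

set_option autoImplicit false

/-!
# Module V5 (project KD): nefness for weights with few distinct values

`pot V W0 K0 ws = ∑_{c ∈ [V, W0]} (count c ws - K0) / 16` (natural subtraction and division): the
number of collisions which are possible.
`nm_pot`: induction on `J` (all `ws`). `J = 0`: `nm_base` with `W = 4 W0`. `J + 1`: some
`c ∈ [V, W0]` has `K0 + 16 ≤ count c ws`; `ws = replicate (K + 16) c + ws0`, `K ≥ K0`;
`ws' = (4c) ::ₘ (replicate K c + ws0)` has the same `sq`, all elements `≤ 4 W0`, and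
`pot ws' ≥ pot ws - 1` (the term of `c` drops by one, the others do not drop: `count (4c)` grows);
`hK0` gives `16 (4 W0)² + c² ≤ (K + 16) c²` as `V ≤ c`; `nm_step`.
`nefK`: with `z = 5 ^ J`: `z (∑ w mult)² ≤ (z + 1) (∑ w²) deg² ≤ z D² deg²`; for `NefP` add the
countable set `TN one_pos n` (injectivity of very general points, as in CF/P2.lean).
-/

namespace Pool.Agent.KD

open MvPolynomial Pool.Agent.helper5.NBS Pool.Agent.helper89.Segre Pool.Agent.helper22.SC
  Pool.Agent.helper89.Exp Pool.Agent.helper25.CF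

/-- the number of possible collisions -/
def pot (V W0 K0 : ℕ) (ws : Multiset ℕ) : ℕ :=
  ∑ c ∈ Finset.Icc V W0, (ws.count c - K0) / 16

lemma sq_add' (a b : Multiset ℕ) : sq (a + b) = sq a + sq b := by simp [sq]

lemma sq_replicate' (K c : ℕ) : sq (Multiset.replicate K c) = K * c ^ 2 := by
  simp [sq]

lemma sq_cons' (c : ℕ) (a : Multiset ℕ) : sq (c ::ₘ a) = c ^ 2 + sq a := by simp [sq]

theorem nm_pot {V W0 K0 : ℕ} (hV : 0 < V) (hVW : V ≤ W0) (hK0 : 256 * W0 ^ 2 + V ^ 2 ≤ K0 * V ^ 2)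
    (J : ℕ) : ∀ ws : Multiset ℕ, (∀ x ∈ ws, x ≤ 4 * W0) → 64 * W0 ^ 2 < sq ws →
      J ≤ pot V W0 K0 ws → NM ws (5 ^ J) := by
  induction J with
  | zero =>
    intro ws hws h64 _
    rw [pow_zero]
    exact nm_base (W := 4 * W0) (by omega) hws (by
      have : 4 * (4 * W0) ^ 2 = 64 * W0 ^ 2 := by ring
      omega)
  | succ J ih =>
    intro ws hws h64 hJ
    -- a class with many points
    obtain ⟨c, hc, hc1⟩ : ∃ c ∈ Finset.Icc V W0, 0 < (ws.count c - K0) / 16 := by
      apply Finset.exists_lt_of_sum_lt (f := fun _ => 0)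
      rw [Finset.sum_const_zero]
      have : pot V W0 K0 ws = ∑ c ∈ Finset.Icc V W0, (ws.count c - K0) / 16 := rfl
      omega
    obtain ⟨hVc, hcW⟩ := Finset.mem_Icc.mp hc
    have hcount : K0 + 16 ≤ ws.count c := by omega
    obtain ⟨K, hK⟩ : ∃ K, ws.count c = K + 16 := ⟨ws.count c - 16, by omega⟩
    obtain ⟨ws0, hws0⟩ : ∃ ws0, ws0 = ws.filter (fun x => ¬ x = c) := ⟨_, rfl⟩
    have hsplit : ws = Multiset.replicate (K + 16) c + ws0 := by
      rw [← hK, ← Multiset.filter_eq', hws0, Multiset.filter_add_not]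
    have hws0' : ∀ x ∈ ws0, x ≤ 4 * W0 := by
      intro x hx
      apply hws
      rw [hsplit]
      exact Multiset.mem_add.mpr (Or.inr hx)
    obtain ⟨ws', hws'⟩ : ∃ ws', ws' = (4 * c) ::ₘ (Multiset.replicate K c + ws0) := ⟨_, rfl⟩
    have hsq : sq ws' = sq ws := by
      rw [hws', hsplit, sq_cons', sq_add', sq_add', sq_replicate', sq_replicate']
      ring
    have hle : ∀ x ∈ ws', x ≤ 4 * W0 := by
      intro x hx
      rw [hws'] at hx
      rcases Multiset.mem_cons.mp hx with rfl | hx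
      · omega
      rcases Multiset.mem_add.mp hx with hx | hx
      · rw [Multiset.eq_of_mem_replicate hx]; omega
      · exact hws0' x hx
    have hpot : pot V W0 K0 ws ≤ pot V W0 K0 ws' + 1 := by
      have h1 : ∀ c' ∈ Finset.Icc V W0, (ws.count c' - K0) / 16 ≤
          (ws'.count c' - K0) / 16 + (if c' = c then 1 else 0) := by
        intro c' _
        have h2 : ws.count c' = (Multiset.replicate (K + 16) c).count c' + ws0.count c' := by
          rw [← Multiset.count_add, ← hsplit]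
        have h3 : (Multiset.replicate K c).count c' + ws0.count c' ≤ ws'.count c' := by
          rw [hws', ← Multiset.count_add]
          exact Multiset.count_le_count_cons _ _ _
        rw [Multiset.count_replicate] at h2 h3
        by_cases h4 : c' = c
        · rw [if_pos h4.symm] at h2 h3
          rw [if_pos h4]
          omega
        · rw [if_neg (Ne.symm h4)] at h2 h3
          rw [if_neg h4]
          omega
      have h5 := Finset.sum_le_sum h1
      rw [Finset.sum_add_distrib, Finset.sum_ite_eq' (Finset.Icc V W0) c (fun _ => 1),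
        if_pos hc] at h5
      exact h5
    have key := ih ws' hle (by rw [hsq]; exact h64) (by omega)
    rw [hws'] at key
    rw [hsplit, pow_succ, mul_comm]
    refine nm_step (W := 4 * W0) (by omega) (by omega) hws0' ?_ (by positivity) key
    -- the numerical condition
    have hKK : K0 ≤ K + 16 := by omega
    obtain ⟨k, rfl⟩ : ∃ k, K0 = k + 1 := by
      rcases Nat.eq_zero_or_pos K0 with h | h
      · exfalso
        rw [h, zero_mul] at hK0
        have : 0 < V ^ 2 := by positivity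
        omega
      · exact ⟨K0 - 1, by omega⟩
    have h1 : (k + 1) * V ^ 2 = k * V ^ 2 + V ^ 2 := by ring
    have h2 : k * V ^ 2 ≤ k * c ^ 2 := Nat.mul_le_mul_left _ (Nat.pow_le_pow_left hVc 2)
    have h3 : (k + 1) * c ^ 2 ≤ (K + 16) * c ^ 2 := Nat.mul_le_mul_right _ hKK
    have h4 : (k + 1) * c ^ 2 = k * c ^ 2 + c ^ 2 := by ring
    have h5 : 16 * (4 * W0) ^ 2 = 256 * W0 ^ 2 := by ring
    omega

/-- `(D; ws)` is nef at very general points -/
def NefPm (D : ℕ) (ws : Multiset ℕ) : Prop :=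
  ∀ (n : ℕ) (w : Fin n → ℕ), Finset.univ.val.map w = ws → Pool.Agent.helper25.ST.NefP D w

theorem nefK {V W0 K0 J D : ℕ} {ws : Multiset ℕ} (hV : 0 < V) (hVW : V ≤ W0)
    (hK0 : 256 * W0 ^ 2 + V ^ 2 ≤ K0 * V ^ 2) (hws : ∀ x ∈ ws, x ≤ 4 * W0)
    (h64 : 64 * W0 ^ 2 < sq ws) (hJ : J ≤ pot V W0 K0 ws)
    (hD : (5 ^ J + 1) * sq ws ≤ 5 ^ J * D ^ 2) : NefPm D ws := by
  intro n w hw
  obtain ⟨T, hT, hT0, hTp⟩ := nm_pot hV hVW hK0 J ws hws h64 hJ n w hw
  refine ⟨T ∪ TN one_pos n, hT.union (TN_countable one_pos _), ?_, ?_⟩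
  · rintro Q (hQ | hQ)
    · exact hT0 Q hQ
    · exact TN_ne one_pos _ Q hQ
  · intro q hq
    refine ⟨(VGN_of one_pos (fun Q hQ => hq Q (Or.inr hQ))).inj, fun F hF => ?_⟩
    have h1 := hTp q (fun Q hQ => hq Q (Or.inl hQ)) F hF
    rw [Nat.cast_one, one_mul] at h1
    obtain ⟨S, hS⟩ : ∃ S, S = ∑ i, w i * mult (q i) F := ⟨_, rfl⟩
    have h2 : ∑ i, (w i : ℝ) * (mult (q i) F : ℝ) = (S : ℝ) := by
      rw [hS]; push_cast; rfl
    rw [h2] at h1
    rw [← hS]
    have h3 : ((5 ^ J + 1) * sq ws : ℝ) ≤ 5 ^ J * (D : ℝ) ^ 2 := by exact_mod_cast hD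
    have h4 : (5 ^ J : ℝ) * (S : ℝ) ^ 2 ≤ 5 ^ J * ((D : ℝ) * wdeg 1 F) ^ 2 := by
      have h5 := mul_le_mul_of_nonneg_right h3 (sq_nonneg (wdeg 1 F : ℝ))
      calc (5 ^ J : ℝ) * (S : ℝ) ^ 2 ≤ (5 ^ J + 1) * sq ws * (wdeg 1 F : ℝ) ^ 2 := h1
        _ ≤ 5 ^ J * (D : ℝ) ^ 2 * (wdeg 1 F : ℝ) ^ 2 := h5
        _ = _ := by ring
    have h6 : (S : ℝ) ^ 2 ≤ ((D : ℝ) * wdeg 1 F) ^ 2 := le_of_mul_le_mul_left h4 (by positivity)
    have h7 : (S : ℝ) ≤ (D : ℝ) * wdeg 1 F := by
      apply le_of_sq_le_sq h6 (by positivity)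
    exact_mod_cast h7

end Pool.Agent.KD
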