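import Mathlib

set_option autoImplicit false

/-!
# Numerics of Theorem K: the number of full groups

`V = 100 (M + 1)`, `U = 3 V + 3 ≤ 301 (M + 1)`, so `U (U + 1) ≤ 9.0601 V²` and `V² ≤ 12100 M²`
(`10 ≤ M`). `K0 V² ≤ 256 W0² + 2 V²`, `W0² ≤ (3 V + 5)² + (b / 4 + 1)² ≤ 109628 M² + b² / 15 + 16`.
`N U (U+1) ≤ 145 J V² + 18.13 k (256 W0² + 17 V²)`, so the left side is at most
`7.1e6 J M² + 2.05e9 k M² + 0.63 Q + small`, and `J ≤ log Q + 1`, with `y = Q / M² ≥ 1e9 (k + log M)`: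
`log Q = log y + 2 log M`, `log y ≤ 21 y / 1e9` (`log (y / 1e9) ≤ y / 1e9 - 1`, `log 1e9 ≤ 21`), so
`7.1e6 J M² ≤ 0.2 Q`. Total at most `2.9 Q`.
-/

namespace Pool.Agent.KD

open Real

private lemma log_bil : Real.log ((10 : ℝ) ^ 9) ≤ 21 := by
  rw [Real.log_le_iff_le_exp (by positivity)]
  have h1 : Real.exp 21 = Real.exp 1 ^ 21 := by
    rw [← Real.exp_nat_mul]
    norm_num
  rw [h1]
  have h2 : (2.7 : ℝ) ≤ Real.exp 1 := by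
    have := Real.exp_one_gt_d9
    linarith
  calc (10 : ℝ) ^ 9 ≤ (2.7 : ℝ) ^ 21 := by norm_num
    _ ≤ Real.exp 1 ^ 21 := pow_le_pow_left₀ (by norm_num) h2 21

private lemma logQ {m Q : ℝ} (hm : 10 ≤ m) (hQ : 0 < Q) :
    m ^ 2 * Real.log Q ≤ 20 * m ^ 2 + Q / 10 ^ 9 + 2 * (m ^ 2 * Real.log m) := by
  have hm0 : 0 < m := by linarith
  have hm2 : 0 < m ^ 2 := by positivity
  have h1 : Real.log Q = Real.log (Q / (m ^ 2 * 10 ^ 9)) + (2 * Real.log m + Real.log ((10 : ℝ) ^ 9)) := by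
    rw [Real.log_div hQ.ne' (by positivity), Real.log_mul hm2.ne' (by positivity), Real.log_pow]
    push_cast
    ring
  have h2 := Real.log_le_sub_one_of_pos (x := Q / (m ^ 2 * 10 ^ 9)) (by positivity)
  have h3 := log_bil
  have h4 : Real.log Q ≤ Q / (m ^ 2 * 10 ^ 9) + 20 + 2 * Real.log m := by
    rw [h1]
    generalize Real.log (Q / (m ^ 2 * 10 ^ 9)) = x at h2 ⊢
    generalize Real.log ((10 : ℝ) ^ 9) = y at h3 ⊢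
    linarith
  have h5 := mul_le_mul_of_nonneg_left h4 hm2.le
  have h6 : m ^ 2 * (Q / (m ^ 2 * 10 ^ 9)) = Q / 10 ^ 9 := by
    field_simp
  calc m ^ 2 * Real.log Q ≤ m ^ 2 * (Q / (m ^ 2 * 10 ^ 9) + 20 + 2 * Real.log m) := h5
    _ = m ^ 2 * (Q / (m ^ 2 * 10 ^ 9)) + 20 * m ^ 2 + 2 * (m ^ 2 * Real.log m) := by ring
    _ = 20 * m ^ 2 + Q / 10 ^ 9 + 2 * (m ^ 2 * Real.log m) := by rw [h6]; ring

theorem numN {M k Q J b V U W0 K0 N : ℕ} (hM : 10 ≤ M) (hk : 1 ≤ k)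
    (h1 : (10 : ℝ) ^ 9 * M ^ 2 * (k + Real.log M) ≤ Q) (hb : 2000 * k * b ^ 2 ≤ Q)
    (hJ : (J : ℝ) ≤ Real.log Q + 1) (hV : V = 100 * (M + 1)) (hU : U = 3 * V + 3)
    (hW0 : W0 = max (3 * V + 5) (b / 4 + 1)) (hK0 : K0 = 256 * W0 ^ 2 / V ^ 2 + 2)
    (hN : N = 16 * J + 2 * k * (K0 + 15)) :
    4 * (N * (U * (U + 1)) + U * (120 * U * k)) + 9 * k * (M * (M + 1)) ≤ 3 * Q := by
  have hMr : (10 : ℝ) ≤ M := by exact_mod_cast hM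
  have hkr : (1 : ℝ) ≤ k := by exact_mod_cast hk
  have hbr : 2000 * (k : ℝ) * (b : ℝ) ^ 2 ≤ Q := by exact_mod_cast hb
  have hlM : 0 ≤ Real.log (M : ℝ) := Real.log_nonneg (by linarith)
  have hQ0 : (0 : ℝ) < Q := by
    have : (0 : ℝ) < 10 ^ 9 * (M : ℝ) ^ 2 * (k + Real.log M) := by positivity
    linarith
  -- the two budgets
  have hA : (k : ℝ) * (M : ℝ) ^ 2 + (M : ℝ) ^ 2 * Real.log M ≤ Q / 10 ^ 9 := by
    rw [le_div_iff₀ (by positivity)]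
    nlinarith [h1]
  have hA0 : 0 ≤ (M : ℝ) ^ 2 * Real.log M := by positivity
  have hkM : (M : ℝ) ^ 2 ≤ (k : ℝ) * (M : ℝ) ^ 2 := by nlinarith [sq_nonneg (M : ℝ)]
  -- J
  have hJM : (J : ℝ) * (M : ℝ) ^ 2 ≤ 24 * (Q / 10 ^ 9) := by
    have h2 := logQ hMr hQ0
    have h3 := mul_le_mul_of_nonneg_left hJ (sq_nonneg (M : ℝ))
    nlinarith
  -- V, U
  have hVr : (V : ℝ) = 100 * (M + 1) := by rw [hV]; push_cast; ring
  have hV1 : (1100 : ℝ) ≤ V := by rw [hVr]; linarith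
  have hV2 : (V : ℝ) ^ 2 ≤ 12100 * (M : ℝ) ^ 2 := by
    have : (V : ℝ) ≤ 110 * M := by rw [hVr]; linarith
    nlinarith
  have hUr : (U : ℝ) = 3 * V + 3 := by rw [hU]; push_cast; ring
  have hVV : 1100 * (V : ℝ) ≤ (V : ℝ) ^ 2 := by nlinarith
  have hUU : (U : ℝ) * (U + 1) ≤ 9.03 * (V : ℝ) ^ 2 := by
    rw [hUr]
    nlinarith
  have hU2 : (U : ℝ) * U ≤ 9.03 * (V : ℝ) ^ 2 := by
    rw [hUr]
    nlinarith
  -- W0
  have hb4 : ((b / 4 : ℕ) : ℝ) ≤ (b : ℝ) / 4 := by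
    have := @Nat.cast_div_le ℝ _ _ _ b 4
    simpa using this
  have hWb : (W0 : ℝ) ^ 2 ≤ 9.03 * (V : ℝ) ^ 2 + ((b : ℝ) ^ 2 / 15 + 16) := by
    have hb5 : (((b / 4 : ℕ) : ℝ) + 1) ^ 2 ≤ (b : ℝ) ^ 2 / 15 + 16 := by
      have hb0 : (0 : ℝ) ≤ ((b / 4 : ℕ) : ℝ) := Nat.cast_nonneg _
      have hb1 : (0 : ℝ) ≤ (b : ℝ) := Nat.cast_nonneg _
      have : (((b / 4 : ℕ) : ℝ) + 1) ^ 2 ≤ ((b : ℝ) / 4 + 1) ^ 2 :=
        pow_le_pow_left₀ (by linarith) (by linarith) 2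
      nlinarith [sq_nonneg ((b : ℝ) - 60)]
    have hv5 : (3 * (V : ℝ) + 5) ^ 2 ≤ 9.03 * (V : ℝ) ^ 2 := by nlinarith
    rcases le_total (3 * V + 5) (b / 4 + 1) with h | h
    · have : W0 = b / 4 + 1 := by rw [hW0, max_eq_right h]
      rw [this]
      push_cast
      have : 0 ≤ (V : ℝ) ^ 2 := by positivity
      linarith
    · have : W0 = 3 * V + 5 := by rw [hW0, max_eq_left h]
      rw [this]
      push_cast
      have : 0 ≤ (b : ℝ) ^ 2 := by positivity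
      linarith
  -- K0
  have hKV : (K0 : ℝ) * (V : ℝ) ^ 2 ≤ 256 * (W0 : ℝ) ^ 2 + 2 * (V : ℝ) ^ 2 := by
    have h2 : K0 * V ^ 2 ≤ 256 * W0 ^ 2 + 2 * V ^ 2 := by
      rw [hK0, add_mul]
      exact Nat.add_le_add_right (Nat.div_mul_le_self _ _) _
    exact_mod_cast h2
  -- assemble
  have hNr : (N : ℝ) = 16 * J + 2 * k * (K0 + 15) := by rw [hN]; push_cast; ring
  have hN0 : (0 : ℝ) ≤ N := Nat.cast_nonneg _
  have e1 : (N : ℝ) * (U * (U + 1)) ≤ 9.03 * (N * (V : ℝ) ^ 2) := by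
    have := mul_le_mul_of_nonneg_left hUU hN0
    linarith
  have e2 : (N : ℝ) * (V : ℝ) ^ 2 = 16 * (J * (V : ℝ) ^ 2) + 2 * (k * (K0 * (V : ℝ) ^ 2 + 15 * (V : ℝ) ^ 2)) := by
    rw [hNr]; ring
  have e3 : (J : ℝ) * (V : ℝ) ^ 2 ≤ 12100 * (24 * (Q / 10 ^ 9)) := by
    have := mul_le_mul_of_nonneg_left hV2 (Nat.cast_nonneg J : (0 : ℝ) ≤ J)
    nlinarith
  have e4 : (K0 : ℝ) * (V : ℝ) ^ 2 + 15 * (V : ℝ) ^ 2 ≤
      (256 * 9.03 + 17) * (12100 * (M : ℝ) ^ 2) + 256 * ((b : ℝ) ^ 2 / 15 + 16) := by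
    nlinarith
  have e5 : (k : ℝ) * (K0 * (V : ℝ) ^ 2 + 15 * (V : ℝ) ^ 2) ≤
      (256 * 9.03 + 17) * 12100 * (k * (M : ℝ) ^ 2) + 256 / 15 * (k * (b : ℝ) ^ 2) + 4096 * k := by
    have := mul_le_mul_of_nonneg_left e4 (by linarith : (0 : ℝ) ≤ k)
    nlinarith
  have e6 : (k : ℝ) * 100 ≤ k * (M : ℝ) ^ 2 := by
    have : (100 : ℝ) ≤ (M : ℝ) ^ 2 := by nlinarith
    nlinarith
  have e7 : (k : ℝ) * (M * (M + 1)) ≤ 2 * (k * (M : ℝ) ^ 2) := by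
    have : (M : ℝ) * (M + 1) ≤ 2 * (M : ℝ) ^ 2 := by nlinarith
    nlinarith
  have e8 : (U : ℝ) * (120 * U * k) ≤ 120 * 9.03 * 12100 * (k * (M : ℝ) ^ 2) := by
    have h2 : (U : ℝ) * U ≤ 9.03 * 12100 * (M : ℝ) ^ 2 := by nlinarith
    have := mul_le_mul_of_nonneg_left h2 (by linarith : (0 : ℝ) ≤ k)
    nlinarith
  have e9 : (k : ℝ) * (b : ℝ) ^ 2 ≤ Q / 2000 := by
    rw [le_div_iff₀ (by norm_num)]
    nlinarith
  have hfin : 4 * ((N : ℝ) * (U * (U + 1)) + U * (120 * U * k)) + 9 * k * (M * (M + 1)) ≤ 3 * Q := by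
    have hX : (k : ℝ) * (M : ℝ) ^ 2 ≤ Q / 10 ^ 9 := by linarith
    have e10 : 9 * (k : ℝ) * (M * (M + 1)) = 9 * (k * (M * (M + 1))) := by ring
    rw [e10]
    have e11 : (N : ℝ) * (V : ℝ) ^ 2 ≤ 16 * (12100 * (24 * (Q / 10 ^ 9))) +
        2 * ((256 * 9.03 + 17) * 12100 * (Q / 10 ^ 9) + 256 / 15 * (Q / 2000) + 40.96 * (Q / 10 ^ 9)) := by
      rw [e2]
      nlinarith
    nlinarith
  exact_mod_cast hfin

end Pool.Agent.KD
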