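import Mathlib

set_option autoImplicit false

/-!
# Numerics of Theorem K: the degree

`k ≥ 1`: `b ≤ √Q / 44`, `10⁹ M² ≤ Q ≤ M s`, so `Q ≤ s² / 10⁹` and `31622 √Q ≤ s`;
`QE ≤ b s / 40 ≤ √Q s / 1760` and `s ≤ Q`.
* `d² ≤ 2 Q + √Q s / 880 ≤ 2 Q + Q^(3/2) / 880 ≤ Q^(3/2) / 800` (`Q ≥ 10¹¹`), so `(d+3)² ≤ Q^(3/2) ≤ 5^J`
  as `5 ≥ exp (3/2)` and `log Q ≤ J`.
* `d² ≤ 2 s² / 10⁹ + s² / (31622 · 880) ≤ (s / 4000)²`, so `d ≤ s / 4000`.
-/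

namespace Pool.Agent.KD

open Real

lemma exp_three_halves_le : Real.exp (3 / 2) ≤ 5 := by
  have h1 : Real.exp (3 / 2) ^ 2 = Real.exp 1 ^ 3 := by
    rw [← Real.exp_nat_mul, ← Real.exp_nat_mul]
    norm_num
  have h2 : Real.exp 1 ^ 3 ≤ 2.7182818286 ^ 3 :=
    pow_le_pow_left₀ (Real.exp_pos 1).le Real.exp_one_lt_d9.le 3
  have h3 : Real.exp (3 / 2) ^ 2 ≤ 5 ^ 2 := by
    rw [h1]
    exact h2.trans (by norm_num)
  exact le_of_sq_le_sq h3 (by norm_num)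

theorem numD {M Q QE ES s b d J : ℕ} (hM : 10 ≤ M) (h1 : 10 ^ 9 * M ^ 2 ≤ Q) (hQs : Q ≤ M * s)
    (hsQ : s ≤ Q) (hb : 2000 * b ^ 2 ≤ Q) (hQE : QE ≤ b * ES) (hES : 40 * ES ≤ s)
    (hd : d ^ 2 ≤ 2 * (Q + QE)) (hJ : Real.log Q ≤ J) :
    (d + 3) ^ 2 ≤ 5 ^ J ∧ 4000 * d ≤ s := by
  have hM' : (10 : ℝ) ≤ M := by exact_mod_cast hM
  have h1' : (10 : ℝ) ^ 9 * M ^ 2 ≤ Q := by exact_mod_cast h1
  have hQs' : (Q : ℝ) ≤ M * s := by exact_mod_cast hQs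
  have hsQ' : (s : ℝ) ≤ Q := by exact_mod_cast hsQ
  have hb' : (2000 : ℝ) * b ^ 2 ≤ Q := by exact_mod_cast hb
  have hQE' : (QE : ℝ) ≤ b * ES := by exact_mod_cast hQE
  have hES' : (40 : ℝ) * ES ≤ s := by exact_mod_cast hES
  have hd' : (d : ℝ) ^ 2 ≤ 2 * (Q + QE) := by exact_mod_cast hd
  have hb0 : (0 : ℝ) ≤ b := Nat.cast_nonneg _
  have hs0 : (0 : ℝ) ≤ s := Nat.cast_nonneg _
  have hd0 : (0 : ℝ) ≤ d := Nat.cast_nonneg _
  have hQbig : (10 : ℝ) ^ 11 ≤ Q := by nlinarith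
  have hQ0 : (0 : ℝ) < Q := by linarith [show (0 : ℝ) < 10 ^ 11 by norm_num]
  have hQE2 : (QE : ℝ) * 40 ≤ b * s := by nlinarith
  -- `10⁹ Q ≤ s²`
  have hQ2 : (10 : ℝ) ^ 9 * Q ≤ s ^ 2 := by
    have h2 : (Q : ℝ) ^ 2 ≤ (M * s) ^ 2 := pow_le_pow_left₀ hQ0.le hQs' 2
    have h3 : (10 : ℝ) ^ 9 * Q * Q ≤ s ^ 2 * Q := by
      have h4 : (10 : ℝ) ^ 9 * (M * s) ^ 2 ≤ Q * s ^ 2 := by
        have := mul_le_mul_of_nonneg_right h1' (sq_nonneg (s : ℝ))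
        calc (10 : ℝ) ^ 9 * (M * s) ^ 2 = (10 : ℝ) ^ 9 * M ^ 2 * s ^ 2 := by ring
          _ ≤ _ := this
      nlinarith
    exact le_of_mul_le_mul_right h3 hQ0
  constructor
  · -- the first inequality
    obtain ⟨q, hq⟩ : ∃ q : ℝ, q = Real.sqrt Q := ⟨_, rfl⟩
    have hq0 : 0 ≤ q := by rw [hq]; exact Real.sqrt_nonneg _
    have hqq : q ^ 2 = Q := by rw [hq]; exact Real.sq_sqrt hQ0.le
    have hqbig : (1000 : ℝ) ≤ q := by
      rw [hq]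
      apply Real.le_sqrt_of_sq_le
      refine le_trans ?_ hQbig
      norm_num
    have hqpos : 0 < q := by linarith
    have hbq : 44 * (b : ℝ) ≤ q := by
      apply le_of_sq_le_sq _ hq0
      rw [hqq]
      nlinarith
    have h5 : (d : ℝ) ^ 2 ≤ 2 * q ^ 2 + q ^ 3 / 880 := by
      have h6 : (b : ℝ) * s ≤ q / 44 * q ^ 2 := by
        rw [hqq]
        exact mul_le_mul (by linarith) hsQ' hs0 (by positivity)
      have h7 : q / 44 * q ^ 2 = q ^ 3 / 44 := by ring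
      rw [h7] at h6
      rw [hqq]
      linarith
    have h8 : ((d : ℝ) + 3) ^ 2 ≤ q ^ 3 := by
      have h9 : ((d : ℝ) + 3) ^ 2 ≤ 2 * (d : ℝ) ^ 2 + 18 := by nlinarith [sq_nonneg ((d : ℝ) - 3)]
      have h10 : 1000 * q ^ 2 ≤ q ^ 3 := by nlinarith [sq_nonneg q]
      have h11 : (18 : ℝ) ≤ q ^ 2 := by nlinarith
      linarith
    have h12 : q ^ 3 ≤ (5 : ℝ) ^ J := by
      have h13 : Real.log Q = 2 * Real.log q := by
        rw [← hqq, Real.log_pow]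
        norm_num
      have h14 : q ^ 3 = Real.exp (3 / 2 * Real.log Q) := by
        rw [h13, show 3 / 2 * (2 * Real.log q) = (3 : ℕ) * Real.log q by push_cast; ring,
          Real.exp_nat_mul, Real.exp_log hqpos]
      rw [h14]
      calc Real.exp (3 / 2 * Real.log Q) ≤ Real.exp (J * (3 / 2)) := by
            apply Real.exp_le_exp.mpr
            linarith
        _ = Real.exp (3 / 2) ^ J := Real.exp_nat_mul _ _
        _ ≤ 5 ^ J := pow_le_pow_left₀ (Real.exp_pos _).le exp_three_halves_le J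
    have h15 := h8.trans h12
    exact_mod_cast h15
  · -- the second inequality
    have hbs : (10 : ℝ) ^ 6 * b ≤ s := by
      apply le_of_sq_le_sq _ hs0
      nlinarith
    have h6 : (b : ℝ) * s * 10 ^ 6 ≤ s ^ 2 := by nlinarith
    have h7 : (4000 * (d : ℝ)) ^ 2 ≤ s ^ 2 := by nlinarith
    have h8 : 4000 * (d : ℝ) ≤ s := le_of_sq_le_sq h7 hs0
    exact_mod_cast h8

end Pool.Agent.KD
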