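import Pool.Agent.KD.LeavesK
import Pool.Agent.KD.NumK1
import Pool.Agent.KD.NumK2

set_option autoImplicit false

/-!
# Theorem K for multisets
-/

namespace Pool.Agent.KD

open Pool.Agent.helper89.Segre Pool.Agent.SH9 Pool.Agent.helper61.EX

lemma sum_le_sq' {M : ℕ} (ms : Multiset ℕ) (h : ∀ x ∈ ms, 1 ≤ x ∧ x ≤ M) :
    ms.sum ≤ sq ms ∧ sq ms ≤ M * ms.sum ∧ s1 ms ≤ 2 * ms.sum := by
  induction ms using Multiset.induction_on with
  | empty => simp [sq, s1]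
  | cons x ms ih =>
    obtain ⟨h1, h2, h3⟩ := ih (fun y hy => h y (Multiset.mem_cons_of_mem hy))
    obtain ⟨h4, h5⟩ := h x (Multiset.mem_cons_self _ _)
    rw [sq_cons, Multiset.sum_cons, s1_cons]
    refine ⟨by nlinarith, by nlinarith, by omega⟩

lemma numBig {M k Q s sx : ℕ} (hM : 10 ≤ M) (hk : 1 ≤ k) (h1 : 10 ^ 9 * M ^ 2 * k ≤ Q)
    (hsQ : Q ≤ M * s) (hsx : 20 * sx ≤ s) :
    10 ^ 9 * (M * k) ≤ s ∧
    4 * (6 * (s / 64 + 1) + 6 * (120 * (3 * (100 * (M + 1)) + 3) * k) + 3 * (3 * k * (M + 1)) +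
      3 * sx + 2 * (2 * M + 1)) + 3 * k * (M + 1) ≤ s := by
  have h2 : M * (10 ^ 9 * (M * k)) ≤ M * s := by
    calc M * (10 ^ 9 * (M * k)) = 10 ^ 9 * M ^ 2 * k := by ring
      _ ≤ M * s := h1.trans hsQ
  have h3 : 10 ^ 9 * (M * k) ≤ s := Nat.le_of_mul_le_mul_left h2 (by omega)
  refine ⟨h3, ?_⟩
  obtain ⟨P, hP⟩ : ∃ P, P = M * k := ⟨_, rfl⟩
  have h4 : k ≤ P := by rw [hP]; nlinarith
  have h5 : M ≤ P := by rw [hP]; nlinarith
  have h6 : 120 * (3 * (100 * (M + 1)) + 3) * k = 36000 * P + 36360 * k := by rw [hP]; ring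
  have h7 : 3 * k * (M + 1) = 3 * P + 3 * k := by rw [hP]; ring
  rw [h6, h7]
  rw [← hP] at h3
  omega

/-- **Theorem K** for multisets -/
theorem goodKms {M : ℕ} {S : Finset ℕ} {mn Ex : Multiset ℕ} (hM : 10 ≤ M)
    (hS : ∀ x ∈ S, 1 ≤ x ∧ x ≤ M) (hmn : ∀ x ∈ mn, x ∈ S) (hEx : ∀ x ∈ Ex, 1 ≤ x)
    (H1 : (10 : ℝ) ^ 9 * M ^ 2 * (S.card + Real.log M) ≤ sq mn)
    (H2 : ∀ x ∈ Ex, 2000 * S.card * x ^ 2 ≤ sq mn) (H3 : 40 * Ex.sum ≤ mn.sum) (d : ℕ) :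
    Good ℂ (tri d) (mn + Ex) (min (cd (mn + Ex)) (tri d).card) := by
  classical
  have hlog : 0 < Real.log M := Real.log_pos (by exact_mod_cast (by omega : 1 < M))
  have hMr : (0 : ℝ) < M := by exact_mod_cast (by omega : 0 < M)
  -- `S` is not empty
  have hk : 1 ≤ S.card := by
    by_contra hcon
    have h0 : S = ∅ := Finset.card_eq_zero.mp (by omega)
    have h1 : mn = 0 := by
      apply Multiset.eq_zero_of_forall_notMem
      intro x hx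
      have := hmn x hx
      rw [h0] at this
      exact absurd this (Finset.notMem_empty _)
    rw [h1, h0] at H1
    have h2 : sq 0 = 0 := by simp [sq]
    rw [h2, Finset.card_empty] at H1
    have h3 : (0 : ℝ) < 10 ^ 9 * M ^ 2 * (((0 : ℕ) : ℝ) + Real.log M) := by
      rw [Nat.cast_zero, zero_add]
      positivity
    rw [Nat.cast_zero] at H1 h3
    linarith
  obtain ⟨k, hkS⟩ : ∃ k, k = S.card := ⟨_, rfl⟩
  rw [← hkS] at H1 H2 hk
  obtain ⟨Q, hQ⟩ : ∃ Q, Q = sq mn := ⟨_, rfl⟩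
  rw [← hQ] at H1 H2
  obtain ⟨hs1, hs2, -⟩ := sum_le_sq' (M := M) mn (fun x hx => hS x (hmn x hx))
  rw [← hQ] at hs1 hs2
  have H1k : 10 ^ 9 * M ^ 2 * k ≤ Q := by
    have : (10 : ℝ) ^ 9 * M ^ 2 * k ≤ Q := by
      refine le_trans ?_ H1
      have : (k : ℝ) ≤ k + Real.log M := by linarith
      gcongr
    exact_mod_cast this
  have H1' : 10 ^ 9 * M ^ 2 ≤ Q := by
    refine le_trans ?_ H1k
    exact Nat.le_mul_of_pos_right _ hk
  -- the bound of the exceptional points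
  obtain ⟨b, hb⟩ : ∃ b, b = Nat.sqrt (Q / (2000 * k)) := ⟨_, rfl⟩
  have hb1 : 2000 * k * b ^ 2 ≤ Q := by
    have h1 : b ^ 2 ≤ Q / (2000 * k) := by rw [hb]; exact Nat.sqrt_le' _
    calc 2000 * k * b ^ 2 ≤ 2000 * k * (Q / (2000 * k)) := Nat.mul_le_mul_left _ h1
      _ ≤ Q := Nat.mul_div_le _ _
  have hb2 : ∀ x ∈ Ex, x ≤ b := by
    intro x hx
    rw [hb, Nat.le_sqrt', Nat.le_div_iff_mul_le (by omega)]
    have := H2 x hx
    rw [mul_comm]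
    exact this
  have hb3 : 2000 * b ^ 2 ≤ Q := by
    refine le_trans ?_ hb1
    exact Nat.mul_le_mul_right _ (by omega)
  obtain ⟨-, hE2, hE3⟩ := sum_le_sq' (M := b) Ex (fun x hx => ⟨hEx x hx, hb2 x hx⟩)
  have hsx : 20 * s1 Ex ≤ mn.sum := by omega
  obtain ⟨hs3, hbig⟩ := numBig hM hk H1k hs2 hsx
  -- parameters
  obtain ⟨V, hV⟩ : ∃ V, V = 100 * (M + 1) := ⟨_, rfl⟩
  obtain ⟨U, hU⟩ : ∃ U, U = 3 * V + 3 := ⟨_, rfl⟩
  obtain ⟨W0, hW0⟩ : ∃ W0, W0 = max (3 * V + 5) (b / 4 + 1) := ⟨_, rfl⟩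
  obtain ⟨K0, hK0⟩ : ∃ K0, K0 = 256 * W0 ^ 2 / V ^ 2 + 2 := ⟨_, rfl⟩
  obtain ⟨J, hJ⟩ : ∃ J, J = ⌈Real.log Q⌉₊ := ⟨_, rfl⟩
  obtain ⟨N, hN⟩ : ∃ N, N = 16 * J + 2 * k * (K0 + 15) := ⟨_, rfl⟩
  have hQ1 : (1 : ℝ) ≤ Q := by
    have : 1 ≤ Q := le_trans (Nat.one_le_iff_ne_zero.mpr (by positivity)) H1'
    exact_mod_cast this
  have hJ1 : Real.log Q ≤ J := by rw [hJ]; exact Nat.le_ceil _
  have hJ2 : (J : ℝ) ≤ Real.log Q + 1 := by
    rw [hJ]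
    exact (Nat.ceil_lt_add_one (Real.log_nonneg hQ1)).le
  have hnum := numN hM hk H1 hb1 hJ2 hV hU hW0 hK0 hN
  have hK0' : 256 * W0 ^ 2 + V ^ 2 ≤ K0 * V ^ 2 := by
    have hVp : 0 < V ^ 2 := by rw [hV]; positivity
    have h1 := Nat.lt_div_mul_add (a := 256 * W0 ^ 2) (b := V ^ 2) hVp
    have h2 : K0 * V ^ 2 = 256 * W0 ^ 2 / V ^ 2 * V ^ 2 + 2 * V ^ 2 := by rw [hK0]; ring
    omega
  have h64 : 64 * W0 ^ 2 < N * V ^ 2 := by
    have hVp : 0 < V ^ 2 := by rw [hV]; positivity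
    have h1 : K0 * V ^ 2 ≤ N * V ^ 2 := by
      apply Nat.mul_le_mul_right
      rw [hN]
      nlinarith
    omega
  have h2cd : 2 * cd mn = Q + mn.sum := by rw [hQ]; exact (sq_cd mn).symm
  refine goodK (V := V) (M := M) (N := N) (q := mn.sum / 64 + 1) (sx := s1 Ex) (U := U)
    (e := 120 * U * S.card) (r0 := 3 * S.card * (M + 1)) (S := S) (by omega) hS (by omega) hU rfl rfl
    hmn ?_ ?_ ?_ ?_ d
  · rw [← hkS]
    omega
  · have h1 : mn.sum ≤ 64 * (mn.sum / 64 + 1) := by omega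
    calc 603 * ((M + 1) * mn.sum) ≤ 603 * ((M + 1) * (64 * (mn.sum / 64 + 1))) := by gcongr
      _ ≤ 400 * V * (mn.sum / 64 + 1) := by rw [hV]; nlinarith
  · rw [← hkS, hU, hV]
    exact hbig
  · intro d _ hd1
    have hC := card_tri d
    have h2c := Pool.Agent.helper25.ST.two_choose d
    have h2cdE : 2 * cd Ex = sq Ex + Ex.sum := (sq_cd Ex).symm
    have hcdt : cd (mn + Ex) = cd mn + cd Ex := cd_add _ _
    obtain ⟨hE1, -, -⟩ := sum_le_sq' (M := b) Ex (fun x hx => ⟨hEx x hx, hb2 x hx⟩)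
    have hdd : d ^ 2 ≤ 2 * (Q + sq Ex) := by nlinarith
    obtain ⟨hd5, hd6⟩ := numD hM H1' hs2 hs1 hb3 hE2 H3 hdd hJ1
    refine ⟨?_, by omega, ?_⟩
    · refine leavesK (W0 := W0) (K0 := K0) (J := J) (by omega) ?_ ?_ hK0' ?_ hd5 h64
      · rw [hW0]
        exact le_trans (by omega) (le_max_left _ _)
      · intro x hx
        have h1 := hb2 x hx
        have h2 : b / 4 + 1 ≤ W0 := by rw [hW0]; exact le_max_right _ _
        omega
      · rw [hN, ← hkS]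
    · rw [← hkS, hU, hV]
      obtain ⟨P, hP⟩ : ∃ P, P = M * k := ⟨_, rfl⟩
      have h4 : k ≤ P := by rw [hP]; nlinarith
      have h5 : M ≤ P := by rw [hP]; nlinarith
      have h6 : 120 * (3 * (100 * (M + 1)) + 3) * k = 36000 * P + 36360 * k := by rw [hP]; ring
      have h7 : 3 * k * (M + 1) = 3 * P + 3 * k := by rw [hP]; ring
      rw [h6, h7]
      rw [← hP] at hs3
      omega

end Pool.Agent.KD
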