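import Pool.Agent.KD.Class2

set_option autoImplicit false

/-!
# Several classes of equal points, and exceptional points
-/

namespace Pool.Agent.KD

open Pool.Agent.helper89.Segre Pool.Agent.SH9 Pool.Agent.helper61.EX

/-- A plan for the multiset `ms`: `F` the full groups, `P` other groups, `R` the remaining points. -/
structure Plan (U k e : ℕ) (ms : Multiset ℕ) (F P : Multiset Grp) (R : Multiset ℕ) : Prop where
  okF : ∀ g ∈ F, g.Ok
  tF : ∀ g ∈ F, g.t + 2 ≤ U
  tF' : ∀ g ∈ F, U ≤ 3 * (g.t + 2)
  okP : ∀ g ∈ P, g.Ok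
  tP : ∀ g ∈ P, g.t + 2 ≤ U
  hk : (F.map Grp.t).toFinset.card ≤ k
  hR : ∀ x ∈ R, x ≤ U
  he : s1 (up P) + s1 R ≤ e
  hms : pts F + pts P + R = ms

theorem plan_classes {U : ℕ} (hU2 : 1024 ≤ U) (S : Finset ℕ) (hS : ∀ x ∈ S, 1 ≤ x ∧ 3 * x + 1 ≤ U)
    (n : ℕ → ℕ) : ∃ (F P : Multiset Grp) (R : Multiset ℕ),
      Plan U S.card (60 * U * S.card) (∑ x ∈ S, Multiset.replicate (n x) x) F P R := by
  classical
  induction S using Finset.induction_on with
  | empty =>
    refine ⟨0, 0, 0, ?_⟩
    constructor <;> simp [pts, s1, up]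
  | insert a S ha ih =>
    obtain ⟨F, P, R, h⟩ := ih (fun x hx => hS x (Finset.mem_insert_of_mem hx))
    obtain ⟨ha1, ha2⟩ := hS a (Finset.mem_insert_self _ _)
    obtain ⟨g, q, G', s, h1, h2, h3, h4, h5, h6⟩ := class2 ha1 ha2 hU2 (n a)
    refine ⟨Multiset.replicate q g + F, G' + P, Multiset.replicate s a + R, ?_⟩
    constructor
    · intro g' hg'
      rcases Multiset.mem_add.mp hg' with hg' | hg'
      · rw [Multiset.eq_of_mem_replicate hg']
        exact h1
      · exact h.okF g' hg'
    · intro g' hg'
      rcases Multiset.mem_add.mp hg' with hg' | hg'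
      · rw [Multiset.eq_of_mem_replicate hg']
        exact h2
      · exact h.tF g' hg'
    · intro g' hg'
      rcases Multiset.mem_add.mp hg' with hg' | hg'
      · rw [Multiset.eq_of_mem_replicate hg']
        exact h3
      · exact h.tF' g' hg'
    · intro g' hg'
      rcases Multiset.mem_add.mp hg' with hg' | hg'
      · exact (h4 g' hg').1
      · exact h.okP g' hg'
    · intro g' hg'
      rcases Multiset.mem_add.mp hg' with hg' | hg'
      · exact (h4 g' hg').2
      · exact h.tP g' hg'
    · rw [Finset.card_insert_of_notMem ha, Multiset.map_add, Multiset.toFinset_add,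
        Multiset.map_replicate]
      have h7 : (Multiset.replicate q g.t).toFinset.card ≤ 1 := by
        refine (Finset.card_le_card (t := {g.t}) ?_).trans (by simp)
        intro y hy
        rw [Multiset.mem_toFinset] at hy
        rw [Finset.mem_singleton]
        exact Multiset.eq_of_mem_replicate hy
      have h8 := Finset.card_union_le (Multiset.replicate q g.t).toFinset (F.map Grp.t).toFinset
      have h9 := h.hk
      omega
    · intro x hx
      rcases Multiset.mem_add.mp hx with hx | hx
      · rw [Multiset.eq_of_mem_replicate hx]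
        omega
      · exact h.hR x hx
    · rw [up_add', s1_add, s1_add, s1_replicate, Finset.card_insert_of_notMem ha]
      have h7 := h.he
      have h8 : 60 * U * (S.card + 1) = 60 * U * S.card + 60 * U := by ring
      omega
    · rw [Finset.sum_insert ha, ← h.hms, ← h6, pts_add, pts_add, pts_add]
      abel

lemma sum_replicate_count (X : Finset ℕ) (ms : Multiset ℕ) :
    (∑ x ∈ X, Multiset.replicate (ms.count x) x) + ms.filter (fun x => x ∉ X) = ms := by
  classical
  ext a
  rw [Multiset.count_add, Multiset.count_sum', Multiset.count_filter]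
  by_cases ha : a ∈ X
  · rw [Finset.sum_eq_single a]
    · simp [ha]
    · intro b _ hb
      rw [Multiset.count_replicate, if_neg hb]
    · intro h
      exact absurd ha h
  · rw [Finset.sum_eq_zero, if_pos ha, zero_add]
    intro b hb
    rw [Multiset.count_replicate, if_neg]
    rintro rfl
    exact ha hb

/-- **the plan of a multiset** -/
theorem exists_plan {U : ℕ} (hU2 : 1024 ≤ U) (X : Finset ℕ)
    (hX : ∀ x ∈ X, 1 ≤ x ∧ 3 * x + 1 ≤ U) (ms : Multiset ℕ) (hms : ∀ x ∈ ms, x ≤ U) :
    ∃ (F P : Multiset Grp) (R : Multiset ℕ),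
      Plan U X.card (60 * U * X.card + s1 (ms.filter (fun x => x ∉ X))) ms F P R := by
  classical
  obtain ⟨F, P, R, h⟩ := plan_classes hU2 X hX (fun x => ms.count x)
  refine ⟨F, P, R + ms.filter (fun x => x ∉ X), ?_⟩
  constructor
  · exact h.okF
  · exact h.tF
  · exact h.tF'
  · exact h.okP
  · exact h.tP
  · exact h.hk
  · intro x hx
    rcases Multiset.mem_add.mp hx with hx | hx
    · exact h.hR x hx
    · exact hms x (Multiset.mem_filter.mp hx).1
  · rw [s1_add]
    have := h.he
    omega
  · rw [← add_assoc, h.hms, sum_replicate_count]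

end Pool.Agent.KD
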