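import Pool.Agent.KD.V5
import Pool.Agent.KD.Classes2
import Pool.Agent.helper25.ST.FinP

set_option autoImplicit false

/-!
# The leaves: regular and empty systems from one nef class
-/

namespace Pool.Agent.KD

open Pool.Agent.helper89.Segre Pool.Agent.SH9 Pool.Agent.helper61.EX

lemma cd_eq_ST (ms : Multiset ℕ) : Pool.Agent.helper25.ST.cd ms = cd ms := rfl
lemma s1_eq_ST (ms : Multiset ℕ) : Pool.Agent.helper25.ST.S1 ms = s1 ms := rfl


/-- `∑ x² = 2 cd - ∑ x` -/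
lemma sq_cd (ms : Multiset ℕ) : sq ms + ms.sum = 2 * cd ms := by
  induction ms using Multiset.induction_on with
  | empty => simp [sq, cd]
  | cons m ms ih =>
    have h1 : sq (m ::ₘ ms) = m ^ 2 + sq ms := by simp [sq]
    have h2 := two_mul_kk m
    rw [h1, cd_cons, Multiset.sum_cons]
    nlinarith

lemma sq_succ (ms : Multiset ℕ) : sq (ms.map fun x => x + 1) = 2 * cd ms + s1 ms := by
  induction ms using Multiset.induction_on with
  | empty => simp [sq, cd, s1]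
  | cons m ms ih =>
    have h1 : sq ((m ::ₘ ms).map fun x => x + 1) = (m + 1) ^ 2 + sq (ms.map fun x => x + 1) := by
      simp [sq]
    have h2 := two_mul_kk m
    rw [h1, cd_cons, s1_cons, ih]
    nlinarith

/-- many elements with few values: many collisions -/
lemma pot_ge {V W0 K0 k J : ℕ} {ws fs : Multiset ℕ} (hle : fs ≤ ws)
    (hfs : ∀ x ∈ fs, V ≤ x ∧ x ≤ W0) (hk : fs.toFinset.card ≤ k)
    (hJ : 16 * J + k * (K0 + 15) ≤ Multiset.card fs) : J ≤ pot V W0 K0 ws := by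
  classical
  have h1 : ∑ c ∈ fs.toFinset, (fs.count c - K0) / 16 ≤ pot V W0 K0 ws := by
    unfold pot
    refine (Finset.sum_le_sum_of_subset (f := fun c => (fs.count c - K0) / 16) ?_).trans
      (Finset.sum_le_sum fun c _ => ?_)
    · intro x hx
      rw [Multiset.mem_toFinset] at hx
      rw [Finset.mem_Icc]
      exact hfs x hx
    · have := Multiset.count_le_of_le c hle
      apply Nat.div_le_div_right
      omega
  have h2 : Multiset.card fs ≤ 16 * (∑ c ∈ fs.toFinset, (fs.count c - K0) / 16) +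
      fs.toFinset.card * (K0 + 15) := by
    rw [← Multiset.toFinset_sum_count_eq fs, Finset.mul_sum, Finset.card_eq_sum_ones,
      Finset.sum_mul, ← Finset.sum_add_distrib]
    apply Finset.sum_le_sum
    intro c _
    omega
  have h3 : fs.toFinset.card * (K0 + 15) ≤ k * (K0 + 15) := Nat.mul_le_mul_right _ hk
  omega

/-- the regular leaf -/
theorem leafR {V W0 K0 J d : ℕ} {ms : Multiset ℕ} (hV : 0 < V) (hVW : V ≤ W0)
    (hK0 : 256 * W0 ^ 2 + V ^ 2 ≤ K0 * V ^ 2) (hws : ∀ x ∈ ms, x + 1 ≤ 4 * W0)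
    (h64 : 64 * W0 ^ 2 < 2 * cd ms) (hJ : J ≤ pot V W0 K0 (ms.map fun x => x + 1))
    (h5 : (d + 3) ^ 2 ≤ 5 ^ J) (hR : cd ms + s1 ms ≤ (tri d).card) :
    Good ℂ (tri d) ms (cd ms) := by
  have hc := card_tri d
  have h2c := Pool.Agent.helper25.ST.two_choose d
  have hsq := sq_succ ms
  have hlt : sq (ms.map fun x => x + 1) + 1 ≤ (d + 3) ^ 2 := by
    rw [hsq]
    nlinarith
  have hnef : NefPm (d + 3) (ms.map fun x => x + 1) := by
    refine nefK hV hVW hK0 ?_ ?_ hJ ?_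
    · intro x hx
      obtain ⟨y, hy, rfl⟩ := Multiset.mem_map.mp hx
      exact hws y hy
    · rw [hsq]
      omega
    · have h6 : 5 ^ J * (sq (ms.map fun x => x + 1) + 1) ≤ 5 ^ J * (d + 3) ^ 2 :=
        Nat.mul_le_mul_left _ hlt
      have h7 : (5 ^ J + 1) * sq (ms.map fun x => x + 1) =
          5 ^ J * sq (ms.map fun x => x + 1) + sq (ms.map fun x => x + 1) := by ring
      have h8 : 5 ^ J * (sq (ms.map fun x => x + 1) + 1) =
          5 ^ J * sq (ms.map fun x => x + 1) + 5 ^ J := by ring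
      omega
  obtain ⟨m, hm⟩ := Pool.Agent.helper25.ST.exists_fin ms
  have h9 : Pool.Agent.helper25.ST.NefP (d + 3) (fun i => m i + 1) := by
    apply hnef
    conv_rhs => rw [← hm]
    rw [Multiset.map_map]
    rfl
  have h10 := Pool.Agent.helper25.ST.goodR' h9 (by
    rw [hm, cd_eq_ST, s1_eq_ST, ← hc]
    exact hR)
  rw [hm] at h10
  exact h10

/-- the empty leaf -/
theorem leafE {V W0 K0 J d : ℕ} {ms : Multiset ℕ} (hV : 0 < V) (hVW : V ≤ W0)
    (hK0 : 256 * W0 ^ 2 + V ^ 2 ≤ K0 * V ^ 2) (hws : ∀ x ∈ ms, x ≤ 4 * W0)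
    (h64 : 64 * W0 ^ 2 < sq ms) (hJ : J ≤ pot V W0 K0 ms)
    (h5 : sq ms ≤ 5 ^ J) (hE : (d + 1) ^ 2 ≤ sq ms) : E d ms := by
  obtain ⟨m, hm⟩ := Pool.Agent.helper25.ST.exists_fin ms
  have hs1 : Nat.sqrt (sq ms) ^ 2 ≤ sq ms := Nat.sqrt_le' _
  have hs2 : sq ms < (Nat.sqrt (sq ms) + 1) ^ 2 := Nat.lt_succ_sqrt' _
  have hs3 : d + 1 ≤ Nat.sqrt (sq ms) := by
    rw [Nat.le_sqrt']
    exact hE
  have hnef : NefPm (Nat.sqrt (sq ms) + 1) ms := by
    refine nefK hV hVW hK0 hws h64 hJ ?_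
    have h6 : 5 ^ J * (sq ms + 1) ≤ 5 ^ J * (Nat.sqrt (sq ms) + 1) ^ 2 :=
      Nat.mul_le_mul_left _ hs2
    have h7 : (5 ^ J + 1) * sq ms = 5 ^ J * sq ms + sq ms := by ring
    have h8 : 5 ^ J * (sq ms + 1) = 5 ^ J * sq ms + 5 ^ J := by ring
    omega
  have h9 := hnef _ m hm
  have h10 := Pool.Agent.helper25.ST.finN' (d := d) h9 (by
    have e1 : ∑ i, m i ^ 2 = sq ms := by
      conv_rhs => rw [← hm]
      rw [sq, Multiset.map_map]
      rfl
    rw [e1]
    nlinarith)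
  rw [hm] at h10
  exact h10

end Pool.Agent.KD
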