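import Pool.Agent.KD.ExactK

set_option autoImplicit false

/-!
# The leaves are non-special (exceptional points of moderate size)
-/

namespace Pool.Agent.KD

open MvPolynomial Pool.Agent.helper5.NBS Pool.Agent.helper89.Segre Pool.Agent.SH9
  Pool.Agent.helper61.EX Pool.Agent.helper25.CF

/-- regular leaf from one nef class -/
theorem leafR' {d : ℕ} {Z : Multiset ℕ} (hnef : NefPm (d + 3) (Z.map fun x => x + 1))
    (h1 : 2 * cd Z + s1 Z < (d + 3) ^ 2) (h2 : cd Z + s1 Z < (d + 5).choose 2) :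
    Good ℂ (tri d) Z (cd Z) := by
  obtain ⟨m, hm⟩ := Pool.Agent.helper25.ST.exists_fin Z
  have h9 : Pool.Agent.helper25.ST.NefP (d + 3) (fun i => m i + 1) := by
    apply hnef
    conv_rhs => rw [← hm]
    rw [Multiset.map_map]
    rfl
  have e1 : ∑ i, (m i + 1) ^ 2 = sq (Z.map fun x => x + 1) := by
    conv_rhs => rw [← hm]
    rw [sq, Multiset.map_map, Multiset.map_map]
    rfl
  have e2 : ∑ i, (m i + 1) = s1 Z := by
    conv_rhs => rw [← hm]
    rw [s1, Multiset.map_map]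
    rfl
  have e3 : 2 * ∑ i, (m i + 2).choose 2 = ∑ i, (m i + 1) ^ 2 + ∑ i, (m i + 1) := by
    rw [Finset.mul_sum, ← Finset.sum_add_distrib]
    apply Finset.sum_congr rfl
    intro i _
    rw [Pool.Agent.helper25.ST.two_choose (m i)]
    ring
  have e4 := sq_succ Z
  have h10 := Pool.Agent.helper25.ST.goodP h9 (by omega) (by omega)
  rw [hm] at h10
  exact h10

/-- empty leaf from the inequality `z (∑ w mult)² ≤ (z + 1) (∑ w²) deg²` -/
theorem leafE' {d : ℕ} {Z : Multiset ℕ} {z : ℝ} (hnef : NM Z z) (hz : (d : ℝ) ^ 2 < z)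
    (h1 : d ^ 2 < sq Z) : E d Z := by
  classical
  obtain ⟨m, hm⟩ := Pool.Agent.helper25.ST.exists_fin Z
  obtain ⟨T, hT, hT0, hTp⟩ := hnef _ m hm
  obtain ⟨x, hx⟩ := Pool.Agent.helper7.SC.exists_avoid T hT hT0
  let q : Fin (Multiset.card Z) → Fin 2 → ℂ := fun i l => x (i, l)
  have hq : ∀ Q ∈ T, evP q Q ≠ 0 := fun Q hQ => hx Q hQ
  rw [← hm]
  refine E_of_emp (p := q) ?_
  intro F hF hmem
  by_contra hF0
  have h2 := hTp q hq F hF0
  have e1 : ∑ i, m i ^ 2 = sq Z := by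
    conv_rhs => rw [← hm]
    rw [sq, Multiset.map_map]
    rfl
  have h3 : sq Z ≤ ∑ i, m i * mult (q i) F := by
    rw [← e1]
    apply Finset.sum_le_sum
    intro i _
    rw [pow_two]
    exact Nat.mul_le_mul le_rfl ((mem_pow_iff_le_mult hF0).mp (hmem i))
  have h4 : (sq Z : ℝ) ≤ ∑ i, (m i : ℝ) * (mult (q i) F : ℝ) := by exact_mod_cast h3
  have h5 : (wdeg 1 F : ℝ) ≤ d := by exact_mod_cast hF
  have h6 : (0 : ℝ) ≤ wdeg 1 F := by positivity
  have h7 : (wdeg 1 F : ℝ) ^ 2 ≤ (d : ℝ) ^ 2 := by gcongr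
  have h8 : ((d : ℝ) ^ 2 + 1) ≤ sq Z := by exact_mod_cast h1
  have hz0 : 0 < z := lt_of_le_of_lt (by positivity) hz
  rw [Nat.cast_one, one_mul] at h2
  have h9 : (0 : ℝ) < sq Z := by nlinarith [sq_nonneg (d : ℝ)]
  have h10 : z * (sq Z : ℝ) ^ 2 ≤ (z + 1) * sq Z * (d : ℝ) ^ 2 := by
    calc z * (sq Z : ℝ) ^ 2 ≤ z * (∑ i, (m i : ℝ) * (mult (q i) F : ℝ)) ^ 2 := by gcongr
      _ ≤ (z + 1) * sq Z * (wdeg 1 F : ℝ) ^ 2 := h2
      _ ≤ _ := by gcongr
  have h11 : z * (sq Z : ℝ) ≤ (z + 1) * (d : ℝ) ^ 2 := by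
    have : (sq Z : ℝ) * (z * (sq Z : ℝ)) ≤ sq Z * ((z + 1) * (d : ℝ) ^ 2) := by nlinarith
    exact le_of_mul_le_mul_left this h9
  nlinarith

lemma sq_map_le (Y Z : Multiset ℕ) : sq Y ≤ sq ((Y + Z).map fun x => x + 1) := by
  rw [Multiset.map_add, sq_add]
  have : sq Y ≤ sq (Y.map fun x => x + 1) := by
    induction Y using Multiset.induction_on with
    | empty => simp
    | cons x Y ih =>
      rw [Multiset.map_cons, sq_cons, sq_cons]
      have h1 : x ^ 2 ≤ (x + 1) ^ 2 := Nat.pow_le_pow_left (by omega) 2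
      omega
  omega

lemma sq_ge {V : ℕ} (fs : Multiset ℕ) (h : ∀ x ∈ fs, V ≤ x) :
    Multiset.card fs * V ^ 2 ≤ sq fs := by
  induction fs using Multiset.induction_on with
  | empty => simp
  | cons x fs ih =>
    have h1 := ih (fun y hy => h y (Multiset.mem_cons_of_mem hy))
    have h2 := Nat.pow_le_pow_left (h x (Multiset.mem_cons_self _ _)) 2
    rw [Multiset.card_cons, sq_cons, add_mul, one_mul]
    omega

lemma sq_mono {fs Y : Multiset ℕ} (h : fs ≤ Y) : sq fs ≤ sq Y := by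
  obtain ⟨Z, rfl⟩ := Multiset.le_iff_exists_add.mp h
  rw [sq_add]
  omega

/-- **the leaves of Theorem K** -/
theorem leavesK {V W0 K0 J k N d T : ℕ} {Ex : Multiset ℕ} (hV : 1 ≤ V) (hW0 : 3 * V + 4 ≤ W0)
    (hEx : ∀ x ∈ Ex, x + 1 ≤ 4 * W0) (hK0 : 256 * W0 ^ 2 + V ^ 2 ≤ K0 * V ^ 2)
    (hN : 16 * J + k * (K0 + 15) ≤ N) (h5 : (d + 3) ^ 2 ≤ 5 ^ J) (h64 : 64 * W0 ^ 2 < N * V ^ 2) :
    Leaves V k N d T Ex := by
  constructor
  · intro Y hY hRich h2 h1
    obtain ⟨fs, hfs, hv, hk, hc⟩ := hRich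
    have hsqY : 64 * W0 ^ 2 < sq Y := by
      have h3 := sq_ge (V := V) fs (fun x hx => by have := (hv x hx).1; omega)
      have h4 := sq_mono hfs
      have h6 : N * V ^ 2 ≤ Multiset.card fs * V ^ 2 := Nat.mul_le_mul_right _ hc
      omega
    refine leafR' ?_ h1 h2
    have hsq := sq_succ (Y + Ex)
    refine nefK (V := V) (W0 := W0) (K0 := K0) (J := J) (by omega) (by omega) hK0 ?_ ?_ ?_ ?_
    · intro x hx
      obtain ⟨y, hy, rfl⟩ := Multiset.mem_map.mp hx
      rcases Multiset.mem_add.mp hy with hy | hy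
      · have := hY y hy
        omega
      · exact hEx y hy
    · exact hsqY.trans_le (sq_map_le Y Ex)
    · refine pot_ge (fs := fs.map fun x => x + 1) (k := k) ?_ ?_ ?_ ?_
      · exact Multiset.map_le_map (hfs.trans (Multiset.le_add_right _ _))
      · intro x hx
        obtain ⟨y, hy, rfl⟩ := Multiset.mem_map.mp hx
        have := hv y hy
        omega
      · refine le_trans ?_ hk
        rw [Multiset.toFinset_map]
        exact Finset.card_image_le
      · rw [Multiset.card_map]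
        omega
    · have h6 : 5 ^ J * (sq ((Y + Ex).map fun x => x + 1) + 1) ≤ 5 ^ J * (d + 3) ^ 2 :=
        Nat.mul_le_mul_left _ (by omega)
      have h7 : (5 ^ J + 1) * sq ((Y + Ex).map fun x => x + 1) =
          5 ^ J * sq ((Y + Ex).map fun x => x + 1) + sq ((Y + Ex).map fun x => x + 1) := by ring
      have h8 : 5 ^ J * (sq ((Y + Ex).map fun x => x + 1) + 1) =
          5 ^ J * sq ((Y + Ex).map fun x => x + 1) + 5 ^ J := by ring
      omega
  · intro Y hY hRich _ h1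
    obtain ⟨fs, hfs, hv, hk, hc⟩ := hRich
    have hsqY : 64 * W0 ^ 2 < sq (Y + Ex) := by
      have h3 := sq_ge (V := V) fs (fun x hx => (hv x hx).1)
      have h4 := sq_mono (hfs.trans (Multiset.le_add_right Y Ex))
      have h6 : N * V ^ 2 ≤ Multiset.card fs * V ^ 2 := Nat.mul_le_mul_right _ hc
      omega
    have hnm : NM (Y + Ex) (5 ^ J) := by
      refine nm_pot (V := V) (W0 := W0) (K0 := K0) (by omega) (by omega) hK0 J _ ?_ hsqY ?_
      · intro y hy
        rcases Multiset.mem_add.mp hy with hy | hy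
        · have := hY y hy
          omega
        · have := hEx y hy
          omega
      · refine pot_ge (fs := fs) (k := k) (hfs.trans (Multiset.le_add_right _ _)) ?_ hk (by omega)
        intro x hx
        have := hv x hx
        omega
    refine leafE' hnm ?_ h1
    have h6 : d ^ 2 < (d + 3) ^ 2 := Nat.pow_lt_pow_left (by omega) (by norm_num)
    have h7 : d ^ 2 < 5 ^ J := by omega
    exact_mod_cast h7

end Pool.Agent.KD
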