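import Pool.Agent.KD.FinalK
import Pool.Agent.helper89.Segre.Results

set_option autoImplicit false

/-!
# Theorem K
-/

namespace Pool.Agent.KD

open MvPolynomial Pool.Agent.helper89.Segre Pool.Agent.SH9 Pool.Agent.helper61.EX

lemma sumkk_eq' {h : ℕ} (m : Fin h → ℕ) :
    cd (Finset.univ.val.map m) = ∑ k, (m k + 1).choose 2 := by
  rw [cd, Multiset.map_map]
  rfl

lemma filter_sum {h : ℕ} (m : Fin h → ℕ) (f : ℕ → ℕ) (P : ℕ → Prop) [DecidablePred P] :
    (((Finset.univ.val.map m).filter P).map f).sum = ∑ i with P (m i), f (m i) := by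
  rw [Multiset.filter_map, Multiset.map_map, Finset.sum]
  rfl

/-- Theorem K for multisets which may contain zeros -/
theorem goodK0 {M : ℕ} {V : Finset ℕ} {L : Multiset ℕ} (hM : 10 ≤ M) (hV : ∀ x ∈ V, x ≤ M)
    (H1 : (10 : ℝ) ^ 9 * M ^ 2 * (V.card + Real.log M) ≤ sq (L.filter (fun x => x ∈ V)))
    (H2 : ∀ x ∈ L, x ∉ V → 2000 * V.card * x ^ 2 ≤ sq (L.filter (fun x => x ∈ V)))
    (H3 : 40 * (L.filter (fun x => x ∉ V)).sum ≤ (L.filter (fun x => x ∈ V)).sum) (d : ℕ) :
    Good ℂ (tri d) L (min (cd L) (tri d).card) := by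
  classical
  obtain ⟨mn, hmn⟩ : ∃ mn, mn = L.filter (fun x => x ∈ V ∧ 0 < x) := ⟨_, rfl⟩
  obtain ⟨Ex, hEx⟩ : ∃ Ex, Ex = L.filter (fun x => x ∉ V ∧ 0 < x) := ⟨_, rfl⟩
  obtain ⟨Z, hZ⟩ : ∃ Z, Z = L.filter (fun x => ¬ 0 < x) := ⟨_, rfl⟩
  have hZ0 : ∀ x ∈ Z, x = 0 := by
    intro x hx
    rw [hZ] at hx
    have := (Multiset.mem_filter.mp hx).2
    omega
  have hL : L = Z + (mn + Ex) := by
    have h1 : mn = (L.filter (fun x => 0 < x)).filter (fun x => x ∈ V) := by
      rw [hmn, Multiset.filter_filter]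
    have h2 : Ex = (L.filter (fun x => 0 < x)).filter (fun x => x ∉ V) := by
      rw [hEx, Multiset.filter_filter]
    rw [h1, h2, Multiset.filter_add_not, hZ, add_comm, Multiset.filter_add_not]
  have hsumZ : ∀ W : Multiset ℕ, (∀ x ∈ W, x = 0) → W.sum = 0 ∧ sq W = 0 ∧ cd W = 0 := by
    intro W
    induction W using Multiset.induction_on with
    | empty => intro _; simp [sq, cd]
    | cons x W ih =>
      intro hW
      obtain ⟨h1, h2, h3⟩ := ih (fun y hy => hW y (Multiset.mem_cons_of_mem hy))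
      have h4 := hW x (Multiset.mem_cons_self _ _)
      subst h4
      have h5 := two_mul_kk 0
      rw [Multiset.sum_cons, sq_cons, cd_cons]
      exact ⟨by omega, by omega, by omega⟩
  have hA : L.filter (fun x => x ∈ V) = mn + (L.filter (fun x => x ∈ V)).filter (fun x => ¬ 0 < x) := by
    have h1 : mn = (L.filter (fun x => x ∈ V)).filter (fun x => 0 < x) := by
      rw [hmn, Multiset.filter_filter]
      apply Multiset.filter_congr
      intro x _
      tauto
    rw [h1, Multiset.filter_add_not]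
  have hB : L.filter (fun x => x ∉ V) = Ex + (L.filter (fun x => x ∉ V)).filter (fun x => ¬ 0 < x) := by
    have h1 : Ex = (L.filter (fun x => x ∉ V)).filter (fun x => 0 < x) := by
      rw [hEx, Multiset.filter_filter]
      apply Multiset.filter_congr
      intro x _
      tauto
    rw [h1, Multiset.filter_add_not]
  obtain ⟨hA1, hA2, -⟩ := hsumZ ((L.filter (fun x => x ∈ V)).filter (fun x => ¬ 0 < x)) (by
    intro x hx
    have := (Multiset.mem_filter.mp hx).2
    omega)
  obtain ⟨hB1, -, -⟩ := hsumZ ((L.filter (fun x => x ∉ V)).filter (fun x => ¬ 0 < x)) (by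
    intro x hx
    have := (Multiset.mem_filter.mp hx).2
    omega)
  have hsq : sq (L.filter (fun x => x ∈ V)) = sq mn := by
    conv_lhs => rw [hA]
    rw [sq_add, hA2, add_zero]
  have hsum : (L.filter (fun x => x ∈ V)).sum = mn.sum := by
    conv_lhs => rw [hA]
    rw [Multiset.sum_add, hA1, add_zero]
  have hsumE : (L.filter (fun x => x ∉ V)).sum = Ex.sum := by
    conv_lhs => rw [hB]
    rw [Multiset.sum_add, hB1, add_zero]
  rw [hsq] at H1 H2
  rw [hsum, hsumE] at H3
  have hSV : ((V.filter (fun x => 0 < x)).card : ℝ) ≤ V.card := by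
    exact_mod_cast Finset.card_filter_le _ _
  have hSV' : (V.filter (fun x => 0 < x)).card ≤ V.card := Finset.card_filter_le _ _
  have key := goodKms (S := V.filter (fun x => 0 < x)) (mn := mn) (Ex := Ex) hM
    (fun x hx => by
      obtain ⟨h1, h2⟩ := Finset.mem_filter.mp hx
      exact ⟨h2, hV x h1⟩)
    (fun x hx => by
      rw [hmn] at hx
      exact Finset.mem_filter.mpr (Multiset.mem_filter.mp hx).2)
    (fun x hx => by
      rw [hEx] at hx
      exact (Multiset.mem_filter.mp hx).2.2)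
    (by
      refine le_trans ?_ H1
      gcongr)
    (fun x hx => by
      rw [hEx] at hx
      obtain ⟨h1, h2, _⟩ := Multiset.mem_filter.mp hx
      refine le_trans ?_ (H2 x h1 h2)
      gcongr)
    H3 d
  have hcd : cd L = cd (mn + Ex) := by
    conv_lhs => rw [hL]
    rw [cd_add, (hsumZ Z hZ0).2.2, zero_add]
  rw [hcd, hL]
  exact key.add Z

/-- **Theorem K.** Few different multiplicities. -/
theorem mainK (d h M : ℕ) (m : Fin h → ℕ) (V : Finset ℕ) (hM : 10 ≤ M) (hV : ∀ x ∈ V, x ≤ M)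
    (H1 : (10 : ℝ) ^ 9 * M ^ 2 * (V.card + Real.log M) ≤ ((∑ i with m i ∈ V, m i ^ 2 : ℕ) : ℝ))
    (H2 : ∀ i, m i ∉ V → 2000 * V.card * m i ^ 2 ≤ ∑ j with m j ∈ V, m j ^ 2)
    (H3 : 40 * ∑ i with m i ∉ V, m i ≤ ∑ i with m i ∈ V, m i) :
    ∃ Q : MvPolynomial (Fin h × Fin 3) ℂ, Q ≠ 0 ∧ ∀ p : Fin h → Fin 3 → ℂ,
      eval (fun ij : Fin h × Fin 3 => p ij.1 ij.2) Q ≠ 0 →
      Module.finrank ℂ (sys d h m p) = (d + 2).choose 2 - ∑ k, (m k + 1).choose 2 := by
  classical
  apply generic_of_good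
  have e1 : sq ((Finset.univ.val.map m).filter (fun x => x ∈ V)) =
      ∑ i with m i ∈ V, m i ^ 2 := filter_sum m (fun x => x ^ 2) _
  have e2 : ∀ (P : ℕ → Prop) [DecidablePred P], ((Finset.univ.val.map m).filter P).sum =
      ∑ i with P (m i), m i := by
    intro P _
    have := filter_sum m (fun x => x) P
    rwa [Multiset.map_id'] at this
  have hg := goodK0 (L := Finset.univ.val.map m) (V := V) hM hV (by rw [e1]; exact H1)
    (by
      intro x hx hxV
      obtain ⟨i, _, rfl⟩ := Multiset.mem_map.mp hx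
      rw [e1]
      exact H2 i hxV)
    (by rw [e2, e2]; exact H3) d
  rw [sumkk_eq', card_tri] at hg
  exact hg

end Pool.Agent.KD
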