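import Pool.Agent.KD.V3
import Pool.Agent.helper25.CF.P2b
import Pool.Agent.helper25.ST.Defs

set_option autoImplicit false

/-!
# Module V4 (project KD): multisets of integral weights

`nefV_perm`: rename the variables (as in `exp_weighted_order`, CF/P2b.lean).
`nefV_scale`: the inequality is homogeneous of degree 2 in the weights.
`NM ws z`: the bound with constant `z` for the multiset `ws` of weights. By `nefV_perm` one
enumeration of `ws` suffices (`NM.of`); two functions `Fin n → ℕ` with the same multiset of values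
differ by a permutation (`Multiset` / `List.Perm`, e.g. via `Tuple.sort` or
`Multiset.map_univ_val_equiv`, `Fin.perm`...; any way).
`nm_base`: `baseK` with `R = W`. `nm_step`: scale by `c`: weights `1` (`K + 16` times) and `v = x / c`,
`R = W / c ≥ 4`; `stepK`; `(4 c)² = 16 c²` so the sum of squares is the same.
-/

namespace Pool.Agent.KD

open MvPolynomial Pool.Agent.helper5.NBS Pool.Agent.helper89.Segre Pool.Agent.helper22.SC
  Pool.Agent.helper89.Exp Pool.Agent.helper25.CF

lemma nefV_perm {N h h' : ℕ} {r z : ℝ} {w : Fin h → ℝ} (e : Fin h' ≃ Fin h) (H : NefV N r w z) :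
    NefV N r (fun i => w (e i)) z := by
  obtain ⟨T, hT, hT0, hTp⟩ := H
  have hinj : Function.Injective (fun x : Fin h × Fin 2 => (e.symm x.1, x.2)) := by
    rintro ⟨x, y⟩ ⟨x', y'⟩ hxy
    simp only [Prod.mk.injEq] at hxy
    rw [e.symm.injective hxy.1, hxy.2]
  have hev : ∀ (q : Fin h' → Fin 2 → ℂ) (Q : PtRing h),
      evP q (rename (fun x : Fin h × Fin 2 => (e.symm x.1, x.2)) Q) =
        evP (fun i => q (e.symm i)) Q := by
    intro q Q
    rw [evP, evP, eval_rename]
    rfl
  refine ⟨(rename (fun x : Fin h × Fin 2 => (e.symm x.1, x.2))) '' T, hT.image _, ?_, ?_⟩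
  · rintro _ ⟨Q, hQ, rfl⟩ h0
    exact hT0 Q hQ (rename_injective _ hinj (by rw [h0, map_zero]))
  · intro q hq F hF
    have h1 := hTp (fun i => q (e.symm i)) (fun Q hQ => by
      rw [← hev]
      exact hq _ ⟨Q, hQ, rfl⟩) F hF
    have h2 : ∑ i, w (e i) * (mult (q i) F : ℝ) = ∑ i, w i * (mult (q (e.symm i)) F : ℝ) := by
      rw [← Equiv.sum_comp e (fun i => w i * (mult (q (e.symm i)) F : ℝ))]
      apply Finset.sum_congr rfl
      intro i _
      rw [Equiv.symm_apply_apply]
    rw [h2]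
    exact h1

lemma nefV_scale {N h : ℕ} {r z c : ℝ} {w : Fin h → ℝ} (hc : 0 < c) (H : NefV N r w z) :
    NefV N (c ^ 2 * r) (fun i => c * w i) z := by
  obtain ⟨T, hT, hT0, hTp⟩ := H
  refine ⟨T, hT, hT0, ?_⟩
  intro p hp F hF
  have h1 := hTp p hp F hF
  have h2 : ∑ i, c * w i * (mult (p i) F : ℝ) = c * ∑ i, w i * (mult (p i) F : ℝ) := by
    rw [Finset.mul_sum]
    apply Finset.sum_congr rfl
    intro i _
    ring
  rw [h2]
  have h3 := mul_le_mul_of_nonneg_left h1 (sq_nonneg c)
  calc (N : ℝ) * z * (c * ∑ i, w i * (mult (p i) F : ℝ)) ^ 2 =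
      c ^ 2 * (N * z * (∑ i, w i * (mult (p i) F : ℝ)) ^ 2) := by ring
    _ ≤ c ^ 2 * ((z + 1) * r * (wdeg N F : ℝ) ^ 2) := h3
    _ = _ := by ring

/-- sum of squares -/
def sq (ws : Multiset ℕ) : ℕ := (ws.map fun x => x ^ 2).sum

/-- the bound with constant `z` for all enumerations of the multiset of weights `ws` -/
def NM (ws : Multiset ℕ) (z : ℝ) : Prop :=
  ∀ (n : ℕ) (w : Fin n → ℕ), Finset.univ.val.map w = ws →
    NefV 1 (sq ws : ℝ) (fun i => (w i : ℝ)) z

/-- two functions with the same multiset of values differ by a bijection -/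
lemma exists_equiv_of_map_eq {n n' : ℕ} (w : Fin n → ℕ) (w' : Fin n' → ℕ)
    (h : Finset.univ.val.map w' = Finset.univ.val.map w) :
    ∃ e : Fin n' ≃ Fin n, ∀ i, w' i = w (e i) := by
  classical
  have h1 : ∀ v, Fintype.card {i // w' i = v} = Fintype.card {i // w i = v} := by
    intro v
    have h2 := congrArg (Multiset.count v) h
    rw [Multiset.count_map, Multiset.count_map] at h2
    rw [Fintype.card_subtype, Fintype.card_subtype]
    have h3 : ∀ {m : ℕ} (u : Fin m → ℕ), (Finset.univ.filter fun i => u i = v).card =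
        Multiset.card (Finset.univ.val.filter fun i => v = u i) := by
      intro m u
      rw [Finset.card_def, Finset.filter_val]
      congr 1
      apply Multiset.filter_congr
      intro x _
      exact ⟨fun h => h.symm, fun h => h.symm⟩
    rw [h3, h3]
    exact h2
  let e : Fin n' ≃ Fin n := (Equiv.sigmaFiberEquiv w').symm.trans
    ((Equiv.sigmaCongrRight fun v => Fintype.equivOfCardEq (h1 v)).trans (Equiv.sigmaFiberEquiv w))
  refine ⟨e, ?_⟩
  intro i
  exact ((Fintype.equivOfCardEq (h1 (w' i))) ⟨i, rfl⟩).2.symm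

lemma NM.of {n : ℕ} {w : Fin n → ℕ} {z : ℝ}
    (H : NefV 1 (sq (Finset.univ.val.map w) : ℝ) (fun i => (w i : ℝ)) z) :
    NM (Finset.univ.val.map w) z := by
  intro n' w' h
  obtain ⟨e, he⟩ := exists_equiv_of_map_eq w w' h
  have h1 := nefV_perm e H
  have h2 : (fun i => ((w' i : ℕ) : ℝ)) = fun i => ((w (e i) : ℕ) : ℝ) := by
    funext i
    rw [he]
  rw [h2]
  exact h1

lemma sum_sq_eq {n : ℕ} (w : Fin n → ℕ) :
    ∑ i, ((w i : ℕ) : ℝ) ^ 2 = (sq (Finset.univ.val.map w) : ℝ) := by
  rw [sq, Multiset.map_map]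
  have h1 : (Multiset.map ((fun x : ℕ => x ^ 2) ∘ w) Finset.univ.val).sum = ∑ i, w i ^ 2 := rfl
  rw [h1]
  push_cast
  rfl

theorem nm_base {ws : Multiset ℕ} {W : ℕ} (hW : 0 < W) (hws : ∀ x ∈ ws, x ≤ W)
    (h4 : 4 * W ^ 2 < sq ws) : NM ws 1 := by
  intro n w hw
  have h4' : 4 * (W : ℝ) ^ 2 < (sq ws : ℝ) := by exact_mod_cast h4
  refine baseK (R := (W : ℝ)) _ (fun i => Nat.cast_nonneg _) (by exact_mod_cast hW) ?_ ?_ h4'
    one_pos ?_
  · intro i
    have h1 : w i ∈ ws := by
      rw [← hw]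
      exact Multiset.mem_map_of_mem w (Finset.mem_univ_val i)
    exact_mod_cast hws _ h1
  · rw [sum_sq_eq, hw]
  · linarith

lemma map_append {a b : ℕ} (f : Fin a → ℕ) (g : Fin b → ℕ) :
    (Finset.univ : Finset (Fin (a + b))).val.map (Fin.append f g) =
      (Finset.univ : Finset (Fin a)).val.map f + (Finset.univ : Finset (Fin b)).val.map g := by
  rw [Fin.univ_val_map, Fin.univ_val_map, Fin.univ_val_map, List.ofFn_fin_append,
    Multiset.coe_add]

lemma map_cons {b : ℕ} (x : ℕ) (g : Fin b → ℕ) :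
    (Finset.univ : Finset (Fin (b + 1))).val.map (Fin.cons x g : Fin (b + 1) → ℕ) =
      x ::ₘ (Finset.univ : Finset (Fin b)).val.map g := by
  rw [Fin.univ_val_map, Fin.univ_val_map, List.ofFn_cons, Multiset.cons_coe]

lemma map_const' (a x : ℕ) :
    (Finset.univ : Finset (Fin a)).val.map (fun _ => x) = Multiset.replicate a x := by
  rw [Multiset.map_const']
  simp

lemma sq_add (a b : Multiset ℕ) : sq (a + b) = sq a + sq b := by simp [sq]
lemma sq_cons (x : ℕ) (a : Multiset ℕ) : sq (x ::ₘ a) = x ^ 2 + sq a := by simp [sq]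
lemma sq_replicate (k c : ℕ) : sq (Multiset.replicate k c) = k * c ^ 2 := by
  simp [sq, Multiset.map_replicate, Multiset.sum_replicate]

theorem nm_step {ws : Multiset ℕ} {W c K : ℕ} {z : ℝ} (hc : 0 < c) (hW : 4 * c ≤ W)
    (hws : ∀ x ∈ ws, x ≤ W) (hK : 16 * W ^ 2 + c ^ 2 ≤ (K + 16) * c ^ 2) (hz : 0 < z)
    (H : NM ((4 * c) ::ₘ (Multiset.replicate K c + ws)) z) :
    NM (Multiset.replicate (K + 16) c + ws) (5 * z) := by
  obtain ⟨L, v0, hv0⟩ : ∃ (L : ℕ) (v0 : Fin L → ℕ), Finset.univ.val.map v0 = ws :=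
    ⟨_, Pool.Agent.helper25.ST.exists_fin ws⟩
  have hc' : (0 : ℝ) < c := by exact_mod_cast hc
  have hcne : (c : ℝ) ≠ 0 := hc'.ne'
  set v : Fin L → ℝ := fun i => (v0 i : ℝ) / c with hv
  have hmem : ∀ i, v0 i ≤ W := fun i => hws _ (by
    rw [← hv0]
    exact Multiset.mem_map_of_mem v0 (Finset.mem_univ_val i))
  have hsum : (K : ℝ) + 16 + ∑ i, v i ^ 2 = (1 / (c : ℝ)) ^ 2 *
      (sq (Multiset.replicate (K + 16) c + ws) : ℝ) := by
    have h1 : ∑ i, v i ^ 2 = (1 / (c : ℝ)) ^ 2 * (sq ws : ℝ) := by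
      rw [← hv0, ← sum_sq_eq, Finset.mul_sum]
      apply Finset.sum_congr rfl
      intro i _
      rw [hv]
      ring
    rw [h1, sq_add, sq_replicate]
    push_cast
    field_simp
  -- the collided system
  have hH : NefV 1 ((1 / (c : ℝ)) ^ 2 * (sq (Multiset.replicate (K + 16) c + ws) : ℝ))
      (wv K (Fin.cons 4 v : Fin (L + 1) → ℝ)) z := by
    have h1 := H (K + (L + 1)) (Fin.append (fun _ => c) (Fin.cons (4 * c) v0 : Fin (L + 1) → ℕ)) (by
      rw [map_append, map_const', map_cons, hv0, Multiset.add_cons])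
    have h2 := nefV_scale (c := 1 / (c : ℝ)) (by positivity) h1
    have h3 : sq ((4 * c) ::ₘ (Multiset.replicate K c + ws)) =
        sq (Multiset.replicate (K + 16) c + ws) := by
      rw [sq_cons, sq_add, sq_add, sq_replicate, sq_replicate]
      ring
    rw [h3] at h2
    have h4 : (fun i => 1 / (c : ℝ) * ((Fin.append (fun _ => c)
        (Fin.cons (4 * c) v0 : Fin (L + 1) → ℕ) i : ℕ) : ℝ)) =
        wv K (Fin.cons 4 v : Fin (L + 1) → ℝ) := by
      funext i
      refine Fin.addCases (fun i => ?_) (fun i => ?_) i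
      · rw [Fin.append_left, wv_left]
        field_simp
      · rw [Fin.append_right, wv_right]
        refine Fin.cases ?_ (fun j => ?_) i
        · rw [Fin.cons_zero, Fin.cons_zero]
          push_cast
          field_simp
        · rw [Fin.cons_succ, Fin.cons_succ, hv]
          ring
    rw [h4] at h2
    exact h2
  have hstep := stepK (R := (W : ℝ) / c) (v := v) (fun i => by rw [hv]; positivity) (by
      rw [le_div_iff₀ hc']
      exact_mod_cast hW) (fun i => by
      rw [hv]
      exact div_le_div_of_nonneg_right (by exact_mod_cast hmem i) hc'.le) hsum (by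
      rw [div_pow, ← mul_div_assoc, div_add_one (pow_ne_zero 2 hcne), div_le_iff₀ (by positivity)]
      exact_mod_cast hK) hz hH
  have h5 := nefV_scale (c := (c : ℝ)) hc' hstep
  have h6 : (c : ℝ) ^ 2 * ((1 / (c : ℝ)) ^ 2 *
      (sq (Multiset.replicate (K + 16) c + ws) : ℝ)) =
      (sq (Multiset.replicate (K + 16) c + ws) : ℝ) := by
    field_simp
  rw [h6] at h5
  have h7 : (fun i => (c : ℝ) * wv (K + 16) v i) =
      fun i => ((Fin.append (fun _ : Fin (K + 16) => c) v0 i : ℕ) : ℝ) := by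
    funext i
    refine Fin.addCases (fun i => ?_) (fun i => ?_) i
    · rw [Fin.append_left, wv_left, mul_one]
    · rw [Fin.append_right, wv_right, hv]
      field_simp
  rw [h7] at h5
  have h8 : Finset.univ.val.map (Fin.append (fun _ : Fin (K + 16) => c) v0) =
      Multiset.replicate (K + 16) c + ws := by
    rw [map_append, map_const', hv0]
  rw [← h8]
  apply NM.of
  rw [h8]
  exact h5

end Pool.Agent.KD
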