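import Pool.Agent.KD.Leaf

set_option autoImplicit false

/-!
# Non-speciality of a system with a plan, outside a thin strip

`U = 3 V + 3`, `341 ≤ V`, weights in `[V, 3 V + 4]`, `K0 = 2324`.
-/

namespace Pool.Agent.KD

open Pool.Agent.helper89.Segre Pool.Agent.SH9 Pool.Agent.helper61.EX

lemma K0_ok {V : ℕ} (hV : 341 ≤ V) : 256 * (3 * V + 4) ^ 2 + V ^ 2 ≤ 2324 * V ^ 2 := by
  nlinarith

lemma rh_le {A : Multiset Grp} (h : ∀ g ∈ A, g.Ok) : rh A ≤ s1 (up A) := by
  induction A using Multiset.induction_on with
  | empty => simp [rh]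
  | cons g A ih =>
    have h1 := ih (fun x hx => h x (Multiset.mem_cons_of_mem hx))
    have h2 := (h g (Multiset.mem_cons_self _ _)).hs
    rw [rh_cons, up_cons, s1_cons]
    omega

lemma sg_le {A : Multiset Grp} (h : ∀ g ∈ A, g.Ok) : sg A ≤ s1 (up A) := by
  induction A using Multiset.induction_on with
  | empty => simp [sg]
  | cons g A ih =>
    have h1 := ih (fun x hx => h x (Multiset.mem_cons_of_mem hx))
    have h2 := (h g (Multiset.mem_cons_self _ _)).hs
    rw [sg_cons, up_cons, s1_cons]
    omega

lemma lo_sum_le (A : Multiset Grp) : (lo A).sum ≤ s1 (up A) := by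
  induction A using Multiset.induction_on with
  | empty => simp [lo]
  | cons g A ih =>
    rw [lo_cons, up_cons, s1_cons, Multiset.sum_cons]
    omega

lemma sum_le_s1 (A : Multiset ℕ) : A.sum ≤ s1 A := by
  induction A using Multiset.induction_on with
  | empty => simp
  | cons g A ih =>
    rw [s1_cons, Multiset.sum_cons]
    omega

lemma rh_add' (A B : Multiset Grp) : rh (A + B) = rh A + rh B := by simp [rh]

/-- the full groups: sum of the multiplicities -/
lemma full_le {V : ℕ} (hV : 341 ≤ V) (F : Multiset Grp) (hok : ∀ g ∈ F, g.Ok)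
    (ht : ∀ g ∈ F, V ≤ g.t + 1) : 100 * V * s1 (up F) ≤ 201 * cd (pts F) := by
  induction F using Multiset.induction_on with
  | empty => simp [s1, up]
  | cons g F ih =>
    have h1 := ih (fun x hx => hok x (Multiset.mem_cons_of_mem hx))
      (fun x hx => ht x (Multiset.mem_cons_of_mem hx))
    have h2 := (hok g (Multiset.mem_cons_self _ _)).low
    have h3 := ht g (Multiset.mem_cons_self _ _)
    have h4 := two_mul_kk (g.t + 1)
    rw [up_cons, s1_cons, pts_cons, cd_add]
    have h5 : 100 * V * (g.t + 2 + 1) ≤ 201 * cd g.gs := by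
      have h6 : 100 * (g.t + 2 + 1) * V ≤ 100 * (g.t + 2 + 1) * (g.t + 1) :=
        Nat.mul_le_mul_left _ h3
      obtain ⟨t, ht⟩ : ∃ t, g.t = t + 340 := ⟨g.t - 340, by omega⟩
      rw [ht] at h6 h4 h2 ⊢
      nlinarith
    have h7 : 100 * V * (g.t + 2 + 1 + s1 (up F)) =
        100 * V * (g.t + 2 + 1) + 100 * V * s1 (up F) := by ring
    rw [h7]
    omega

/-- the number of full groups -/
lemma full_card {U : ℕ} (F : Multiset Grp) (hok : ∀ g ∈ F, g.Ok) (ht : ∀ g ∈ F, g.t + 2 ≤ U) :
    2 * cd (pts F) ≤ Multiset.card F * (U * (U + 1)) := by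
  induction F using Multiset.induction_on with
  | empty => simp [pts, cd]
  | cons g F ih =>
    have h1 := ih (fun x hx => hok x (Multiset.mem_cons_of_mem hx))
      (fun x hx => ht x (Multiset.mem_cons_of_mem hx))
    have h2 := (hok g (Multiset.mem_cons_self _ _)).hc
    have h3 := ht g (Multiset.mem_cons_self _ _)
    have h4 := two_mul_kk (g.t + 2)
    have h5 : (g.t + 2) * (g.t + 2) ≤ U * U := Nat.mul_le_mul h3 h3
    rw [pts_cons, cd_add, Multiset.card_cons]
    nlinarith

/-- the conditions of the other points -/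
lemma rest_le {U : ℕ} (P : Multiset Grp) (hok : ∀ g ∈ P, g.Ok) (ht : ∀ g ∈ P, g.t + 2 ≤ U) :
    2 * cd (pts P) ≤ U * s1 (up P) := by
  induction P using Multiset.induction_on with
  | empty => simp [pts, cd]
  | cons g P ih =>
    have h1 := ih (fun x hx => hok x (Multiset.mem_cons_of_mem hx))
      (fun x hx => ht x (Multiset.mem_cons_of_mem hx))
    have h2 := (hok g (Multiset.mem_cons_self _ _)).hc
    have h3 := ht g (Multiset.mem_cons_self _ _)
    have h4 := two_mul_kk (g.t + 2)
    have h5 : (g.t + 2) * (g.t + 3) ≤ U * (g.t + 3) := Nat.mul_le_mul_right _ h3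
    rw [pts_cons, cd_add, up_cons, s1_cons]
    nlinarith

lemma rest_le' {U : ℕ} (R : Multiset ℕ) (hR : ∀ x ∈ R, x ≤ U) : 2 * cd R ≤ U * s1 R := by
  induction R using Multiset.induction_on with
  | empty => simp [cd]
  | cons x R ih =>
    have h1 := ih (fun y hy => hR y (Multiset.mem_cons_of_mem hy))
    have h3 := hR x (Multiset.mem_cons_self _ _)
    have h4 := two_mul_kk x
    have h5 : x * (x + 1) ≤ U * (x + 1) := Nat.mul_le_mul_right _ h3
    rw [cd_cons, s1_cons]
    nlinarith

section

variable {V k e J d : ℕ} {ms : Multiset ℕ} {F P : Multiset Grp} {R : Multiset ℕ}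

lemma card_F (h : Plan (3 * V + 3) k e ms F P R)
    (hN : (3 * V + 3) * e + (3 * V + 3) * (3 * V + 4) * (16 * J + 2339 * k) ≤ 2 * cd ms) :
    16 * J + k * (2324 + 15) ≤ Multiset.card F := by
  have h1 := full_card F h.okF h.tF
  have h2 := rest_le P h.okP h.tP
  have h3 := rest_le' R h.hR
  have h4 : 2 * cd ms = 2 * cd (pts F) + 2 * cd (pts P) + 2 * cd R := by
    rw [← h.hms, cd_add, cd_add]
    ring
  have h5 : (3 * V + 3) * (s1 (up P) + s1 R) ≤ (3 * V + 3) * e := Nat.mul_le_mul_left _ h.he
  have h6 : (3 * V + 3) * (3 * V + 4) * (16 * J + 2339 * k) ≤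
      (3 * V + 3) * (3 * V + 4) * Multiset.card F := by
    rw [mul_add (3 * V + 3)] at h5
    have h7 : Multiset.card F * ((3 * V + 3) * (3 * V + 3 + 1)) =
      (3 * V + 3) * (3 * V + 4) * Multiset.card F := by ring
    omega
  have h7 := Nat.le_of_mul_le_mul_left h6 (by positivity)
  omega

/-- **regular half** -/
theorem regK (hV : 341 ≤ V) (h : Plan (3 * V + 3) k e ms F P R)
    (hN : (3 * V + 3) * e + (3 * V + 3) * (3 * V + 4) * (16 * J + 2339 * k) ≤ 2 * cd ms)
    (h64 : 64 * (3 * V + 4) ^ 2 < 2 * cd ms) (h5 : (d + 3) ^ 2 ≤ 5 ^ J)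
    (hR : cd ms + 2 * s1 (up F) + 2 * e ≤ (tri d).card) :
    Good ℂ (tri d) ms (cd ms) := by
  have hok : ∀ g ∈ F + P, g.Ok := by
    intro g hg
    rcases Multiset.mem_add.mp hg with hg | hg
    · exact h.okF g hg
    · exact h.okP g hg
  have hms : pts (F + P) + R = ms := by rw [pts_add]; exact h.hms
  have hcu := cd_up hok
  have hrh := rh_le hok
  have hcd : cd (up (F + P) + R) = cd ms + rh (F + P) := by
    rw [cd_add, hcu, ← hms, cd_add]
    ring
  have hs1 : s1 (up (F + P)) = s1 (up F) + s1 (up P) := by rw [up_add', s1_add]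
  have he := h.he
  have hcF := card_F h hN
  have key : Good ℂ (tri d) (up (F + P) + R) (cd (up (F + P) + R)) := by
    refine leafR (V := V) (W0 := 3 * V + 4) (K0 := 2324) (J := J) (by omega) (by omega) (K0_ok hV)
      ?_ (by rw [hcd]; omega) ?_ h5 ?_
    · intro x hx
      rcases Multiset.mem_add.mp hx with hx | hx
      · obtain ⟨g, hg, rfl⟩ := Multiset.mem_map.mp hx
        rcases Multiset.mem_add.mp hg with hg | hg
        · have := h.tF g hg
          omega
        · have := h.tP g hg
          omega
      · have := h.hR x hx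
        omega
    · refine pot_ge (fs := F.map fun g => g.t + 3) (k := k) ?_ ?_ ?_ ?_
      · rw [up_add', Multiset.map_add, Multiset.map_add]
        have e1 : (up F).map (fun x => x + 1) = F.map fun g => g.t + 3 := by
          rw [up, Multiset.map_map]
          rfl
        rw [e1, add_assoc]
        exact Multiset.le_add_right _ _
      · intro x hx
        obtain ⟨g, hg, rfl⟩ := Multiset.mem_map.mp hx
        have h1 := h.tF g hg
        have h2 := h.tF' g hg
        omega
      · refine le_trans ?_ h.hk
        have e1 : (F.map fun g => g.t + 3).toFinset = (F.map Grp.t).toFinset.image (· + 3) := by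
          ext x
          simp [Multiset.mem_toFinset, Finset.mem_image]
        rw [e1]
        exact Finset.card_image_le
      · rw [Multiset.card_map]
        exact hcF
    · rw [hcd, s1_add, hs1]
      omega
  have h6 := good_of_up (F + P) R hok key
  rw [hms] at h6
  exact h6

/-- **empty half** -/
theorem empK (hV : 341 ≤ V) (h : Plan (3 * V + 3) k e ms F P R)
    (hN : (3 * V + 3) * e + (3 * V + 3) * (3 * V + 4) * (16 * J + 2339 * k) ≤ 2 * cd ms)
    (h64 : 64 * (3 * V + 4) ^ 2 < (tri d).card) (h5 : 2 * cd ms ≤ 5 ^ J)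
    (hE : 2 * (tri d).card + 3 * s1 (up F) + 3 * e ≤ 2 * cd ms) : E d ms := by
  have hok : ∀ g ∈ F + P, g.Ok := by
    intro g hg
    rcases Multiset.mem_add.mp hg with hg | hg
    · exact h.okF g hg
    · exact h.okP g hg
  have hms : pts (F + P) + R = ms := by rw [pts_add]; exact h.hms
  have hcu := cd_lo hok
  have hsg := sg_le hok
  have hcd : cd (lo (F + P) + R) + sg (F + P) = cd ms := by
    rw [cd_add, ← hms, cd_add]
    omega
  have hs1 : s1 (up (F + P)) = s1 (up F) + s1 (up P) := by rw [up_add', s1_add]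
  have he := h.he
  have hcF := card_F h hN
  have hsq := sq_cd (lo (F + P) + R)
  have hsum : (lo (F + P) + R).sum ≤ s1 (up F) + s1 (up P) + s1 R := by
    rw [Multiset.sum_add]
    have h1 := lo_sum_le (F + P)
    have h2 := sum_le_s1 R
    omega
  have hC := card_tri d
  have h2c := Pool.Agent.helper25.ST.two_choose d
  have h2c' : (d + 1) ^ 2 ≤ (d + 1) * (d + 2) := by nlinarith
  have hsq2 : 2 * (tri d).card ≤ sq (lo (F + P) + R) := by omega
  have key : E d (lo (F + P) + R) := by
    refine leafE (V := V) (W0 := 3 * V + 4) (K0 := 2324) (J := J) (by omega) (by omega) (K0_ok hV)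
      ?_ (by omega) ?_ (by omega) (by omega)
    · intro x hx
      rcases Multiset.mem_add.mp hx with hx | hx
      · obtain ⟨g, hg, rfl⟩ := Multiset.mem_map.mp hx
        rcases Multiset.mem_add.mp hg with hg | hg
        · have := h.tF g hg
          omega
        · have := h.tP g hg
          omega
      · have := h.hR x hx
        omega
    · refine pot_ge (fs := lo F) (k := k) ?_ ?_ ?_ ?_
      · rw [lo_add, add_assoc]
        exact Multiset.le_add_right _ _
      · intro x hx
        obtain ⟨g, hg, rfl⟩ := Multiset.mem_map.mp hx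
        have h1 := h.tF g hg
        have h2 := h.tF' g hg
        omega
      · refine le_trans ?_ h.hk
        have e1 : (lo F).toFinset = (F.map Grp.t).toFinset.image (· + 1) := by
          ext x
          simp [lo, Multiset.mem_toFinset, Finset.mem_image]
        rw [e1]
        exact Finset.card_image_le
      · rw [lo, Multiset.card_map]
        exact hcF
  have h6 := E_of_lo (F + P) R hok key
  rw [hms] at h6
  exact h6

end

end Pool.Agent.KD
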