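import Pool.Agent.helper61.EX.Class

set_option autoImplicit false

/-!
# All degrees from the two degrees next to the critical one
-/

namespace Pool.Agent.KD

open Pool.Agent.helper89.Segre Pool.Agent.SH9 Pool.Agent.helper61.EX

lemma card_tri_succ (d : ℕ) : (tri (d + 1)).card = (tri d).card + (d + 2) := by
  rw [card_tri', card_tri']
  exact kk_succ d

lemma card_tri_mono {a b : ℕ} (h : a ≤ b) : (tri a).card ≤ (tri b).card := by
  rw [card_tri', card_tri']
  exact kk_mono (by omega)

lemma tri_mono {a b : ℕ} (h : a ≤ b) : tri a ⊆ tri b := by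
  intro e he
  rw [mem_tri] at he ⊢
  omega

/-- It suffices to prove non-speciality in the smallest degree with non-negative virtual dimension
and in the one before. -/
theorem all_d {ms : Multiset ℕ}
    (hR : ∀ d, cd ms ≤ (tri d).card → (tri d).card ≤ cd ms + (d + 1) →
      Good ℂ (tri d) ms (cd ms))
    (hE : ∀ d, (tri d).card < cd ms → cd ms ≤ (tri d).card + (d + 2) → E d ms) :
    ∀ d, Good ℂ (tri d) ms (min (cd ms) (tri d).card) := by
  classical
  intro d
  have hex : ∃ e, cd ms ≤ (tri e).card := by
    refine ⟨cd ms, ?_⟩
    rw [card_tri']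
    have := two_mul_kk (cd ms + 1)
    nlinarith
  have hs := Nat.find_spec hex
  rcases Nat.lt_or_ge (tri d).card (cd ms) with h1 | h1
  · -- empty
    rw [min_eq_right h1.le]
    have h2 : d < Nat.find hex := by
      by_contra hcon
      have := card_tri_mono (not_lt.mp hcon)
      omega
    obtain ⟨e, he⟩ : ∃ e, Nat.find hex = e + 1 := ⟨Nat.find hex - 1, by omega⟩
    have h3 : (tri e).card < cd ms := by
      have := Nat.find_min hex (m := e) (by omega)
      omega
    rw [he, card_tri_succ] at hs
    have h4 : E e ms := hE e h3 hs
    exact h4.mono (by omega)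
  · rw [min_eq_left h1]
    have h2 : Nat.find hex ≤ d := Nat.find_min' hex h1
    have h3 : (tri (Nat.find hex)).card ≤ cd ms + (Nat.find hex + 1) := by
      rcases Nat.eq_zero_or_pos (Nat.find hex) with h4 | h4
      · rw [h4]
        have : (tri 0).card = 1 := by
          rw [card_tri']
          have h5 := two_mul_kk 1
          show kk 1 = 1
          omega
        omega
      · obtain ⟨e, he⟩ : ∃ e, Nat.find hex = e + 1 := ⟨Nat.find hex - 1, by omega⟩
        have h5 := Nat.find_min hex (m := e) (by omega)
        rw [he, card_tri_succ]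
        omega
    exact (hR _ hs h3).mono_left (tri_mono h2)

end Pool.Agent.KD
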