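import Pool.Agent.helper61.EX.Classes
import Pool.Agent.helper1.EX.GR

set_option autoImplicit false

/-!
# Groups of equal points, with a remainder which does not depend on the degree

`sz G R = ∑_{g ∈ G} (g.t + 3) + ∑_{x ∈ R} (x + 1)`: the sum of `multiplicity + 1` after the collisions.
-/

namespace Pool.Agent.KD

open Pool.Agent.helper89.Segre Pool.Agent.SH9 Pool.Agent.helper61.EX

/-- sum of `x + 1` -/
def s1 (R : Multiset ℕ) : ℕ := (R.map fun x => x + 1).sum

lemma s1_add (A B : Multiset ℕ) : s1 (A + B) = s1 A + s1 B := by simp [s1]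
lemma s1_cons (x : ℕ) (B : Multiset ℕ) : s1 (x ::ₘ B) = (x + 1) + s1 B := by simp [s1]
lemma s1_replicate (n x : ℕ) : s1 (Multiset.replicate n x) = n * (x + 1) := by
  simp [s1, Multiset.map_replicate]
lemma up_add' (A B : Multiset Grp) : up (A + B) = up A + up B := by simp [up]

/-- many equal points are non-special in every degree -/
lemma hx_of_large {x n : ℕ} (h : 106 * (x + 1) ^ 2 ≤ n * x) : HX x n := by
  intro d
  have h1 := Pool.Agent.helper1.EX.goodGR (d := d) (M := x) (ms := Multiset.replicate n x)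
    (R0 := 0) (Rb := 0) (fun y hy => (Multiset.eq_of_mem_replicate hy).le) (by simp) (by simp)
    (by simp) (by rw [Multiset.sum_replicate, smul_eq_mul]; exact h)
  rw [add_zero, add_zero, cd_replicate, min_comm] at h1
  exact h1

lemma hx_106 {x n : ℕ} (hx : 1 ≤ x) (hn : 106 * (x + 3) ≤ n) : HX x n := by
  apply hx_of_large
  calc 106 * (x + 1) ^ 2 ≤ 106 * (x + 3) * x := by nlinarith
    _ ≤ n * x := Nat.mul_le_mul_right _ hn

/-- the digits in base 9 -/
theorem digits {x : ℕ} (hx : 1 ≤ x) (k : ℕ) (hL : ∀ j, j ≤ k → LCond x j) :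
    ∀ n, n < 9 ^ (k + 1) → ∃ (G : Multiset Grp) (s : ℕ), (∀ g ∈ G, g.Ok ∧ g.t + 2 ≤ TT x k) ∧
      s ≤ 8 ∧ s1 (up G) + s * (x + 1) ≤ 8 * (3 * TT x k + 2) ∧
      pts G + Multiset.replicate s x = Multiset.replicate n x := by
  induction k with
  | zero =>
    intro n hn
    refine ⟨0, n, by simp, by omega, ?_, by simp [pts]⟩
    have h1 : n ≤ 8 := by omega
    have : TT x 0 = x := rfl
    rw [this]
    have h2 : s1 (up 0) = 0 := by simp [s1, up]
    rw [h2, zero_add]
    exact Nat.mul_le_mul h1 (by omega)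
  | succ k ih =>
    intro n hn
    have hdm := Nat.div_add_mod n (9 ^ (k + 1))
    have hlt := Nat.mod_lt n (show 0 < 9 ^ (k + 1) from Nat.pow_pos (by norm_num))
    obtain ⟨G, s, h1, h2, h3, h4⟩ := ih (fun j hj => hL j (by omega)) _ hlt
    have h5 : n / 9 ^ (k + 1) ≤ 8 := by
      have : n / 9 ^ (k + 1) < 9 := by
        rw [Nat.div_lt_iff_lt_mul (Nat.pow_pos (by norm_num)), mul_comm, ← pow_succ]
        exact hn
      omega
    have hT : TT x (k + 1) = 3 * TT x k + 1 := rfl
    have hTx := le_TT x k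
    refine ⟨Multiset.replicate (n / 9 ^ (k + 1)) (gL x (k + 1)) + G, s, ?_, h2, ?_, ?_⟩
    · intro g hg
      rcases Multiset.mem_add.mp hg with hg | hg
      · rw [Multiset.eq_of_mem_replicate hg]
        refine ⟨gL_ok hx (hL (k + 1) le_rfl), ?_⟩
        show TT x (k + 1) - 2 + 2 ≤ TT x (k + 1)
        omega
      · obtain ⟨h6, h7⟩ := h1 g hg
        exact ⟨h6, by omega⟩
    · rw [up_add', s1_add, up_replicate, s1_replicate]
      have h6 : (gL x (k + 1)).t + 2 + 1 = TT x (k + 1) + 1 := by
        show TT x (k + 1) - 2 + 2 + 1 = _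
        omega
      rw [h6]
      have h7 : n / 9 ^ (k + 1) * (TT x (k + 1) + 1) ≤ 8 * (TT x (k + 1) + 1) :=
        Nat.mul_le_mul_right _ h5
      omega
    · rw [pts_add, add_assoc, h4]
      have h6 : pts (Multiset.replicate (n / 9 ^ (k + 1)) (gL x (k + 1))) =
          Multiset.replicate (9 ^ (k + 1) * (n / 9 ^ (k + 1))) x := by
        rw [pts, Multiset.map_replicate, Multiset.sum_replicate]
        show _ • Multiset.replicate (9 ^ (k + 1)) x = _
        rw [Multiset.nsmul_replicate]
        congr 1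
        ring
      rw [h6, ← Multiset.replicate_add, hdm]

lemma LCond_pred {x i : ℕ} (h : LCond x (i + 2)) : LCond x (i + 1) := by
  intro j hj
  have hji : j = i := by omega
  subst hji
  have h1 := h (j + 1) rfl
  have h2 : TT x (j + 1) = 3 * TT x j + 1 := rfl
  have h3 : rho (j + 1) = 9 * rho j + 1 := rfl
  omega

lemma LCond_mono {x i : ℕ} (h : LCond x (i + 1)) : ∀ j, j ≤ i + 1 → LCond x j := by
  induction i with
  | zero =>
    intro j hj
    rcases Nat.lt_or_ge j 1 with h1 | h1
    · intro l hl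
      omega
    · have : j = 0 + 1 := by omega
      rw [this]
      exact h
  | succ i ih =>
    intro j hj
    rcases Nat.lt_or_ge j (i + 1 + 1) with h1 | h1
    · exact ih (LCond_pred h) j (by omega)
    · have : j = i + 1 + 1 := by omega
      rw [this]
      exact h

/-- large multiplicities: the top level -/
lemma top_large {x U : ℕ} (hx : 1 ≤ x) (hU : 3 * x + 1 ≤ U) (h0 : 3 * U ≤ 8 * x ^ 2) :
    ∃ k, LCond x (k + 1) ∧ TT x (k + 1) ≤ U ∧ U ≤ 3 * TT x (k + 1) := by
  classical
  have hex : ∃ i, U < TT x i := ⟨U + 1, by have := TT_strict x (U + 1); omega⟩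
  obtain ⟨k, hk⟩ : ∃ k, Nat.find hex = k + 2 := by
    have h1 : 2 ≤ Nat.find hex := by
      by_contra hcon
      have h1 : Nat.find hex ≤ 1 := by omega
      have h2 := Nat.find_spec hex
      have h3 : TT x (Nat.find hex) ≤ TT x 1 := by
        rcases Nat.lt_or_ge (Nat.find hex) 1 with h4 | h4
        · have h5 : Nat.find hex = 0 := by omega
          rw [h5]
          show x ≤ 3 * x + 1
          omega
        · rw [le_antisymm h1 h4]
      have h4 : TT x 1 = 3 * x + 1 := rfl
      omega
    exact ⟨Nat.find hex - 2, by omega⟩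
  have h1 : U < TT x (k + 2) := by rw [← hk]; exact Nat.find_spec hex
  have h2 : TT x (k + 1) ≤ U := by
    have := Nat.find_min hex (m := k + 1) (by omega)
    omega
  have h3 : TT x (k + 2) = 3 * TT x (k + 1) + 1 := rfl
  have hTT := two_TT x (k + 1)
  refine ⟨k, ?_, h2, by omega⟩
  intro j hj
  have hjk : j = k := by omega
  subst hjk
  have e1 := two_TT x j
  have e2 := eight_rho j
  have e3 : (9 : ℕ) ^ j = 3 ^ j * 3 ^ j := by rw [← mul_pow]; norm_num
  have e4 : 3 ^ (j + 1) * (2 * x + 1) ≤ 2 * U + 1 := by omega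
  rw [pow_succ] at e4
  rw [e3] at e2
  generalize (3 : ℕ) ^ j = P at *
  -- `9 P ≤ 4 (2 x + 1)`
  have e5 : 9 * P ≤ 4 * (2 * x + 1) := by
    by_contra hcon
    push Not at hcon
    have e6 : 4 * (2 * x + 1) * (2 * x + 1) < 9 * P * (2 * x + 1) :=
      Nat.mul_lt_mul_of_pos_right hcon (by omega)
    have e7 : 9 * P * (2 * x + 1) = 3 * (P * 3 * (2 * x + 1)) := by ring
    nlinarith
  have e6 : 9 * (P * P) ≤ 4 * (P * (2 * x + 1)) := by nlinarith
  omega

/-- small multiplicities: arithmetic -/
lemma small_num {x U : ℕ} (hU : 1024 ≤ U) (h0 : 8 * x ^ 2 < 3 * U) :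
    106 * (x + 3) * (x * (x + 1)) ≤ U * (U + 1) ∧ 106 * (x + 3) * (x + 1) ≤ 58 * U := by
  rcases Nat.lt_or_ge x 20 with h1 | h1
  · constructor
    · have h2 : 106 * (x + 3) * (x * (x + 1)) ≤ 106 * (19 + 3) * (19 * (19 + 1)) := by
        gcongr <;> omega
      have h3 : 1024 * (1024 + 1) ≤ U * (U + 1) := by gcongr
      omega
    · have h2 : 106 * (x + 3) * (x + 1) ≤ 46640 := by nlinarith
      have h3 : 46640 ≤ 58 * U := by linarith
      exact h2.trans h3
  · obtain ⟨y, rfl⟩ : ∃ y, x = y + 20 := ⟨x - 20, by omega⟩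
    constructor
    · have h2 : (8 * (y + 20) ^ 2) * (8 * (y + 20) ^ 2) ≤ (3 * U) * (3 * U) :=
        Nat.mul_le_mul h0.le h0.le
      nlinarith [sq_nonneg (y : ℕ), Nat.zero_le (y ^ 3), Nat.zero_le (y ^ 4)]
    · nlinarith

/-- **a class of equal points**, no logarithm in the remainder -/
theorem class2 {x U : ℕ} (hx : 1 ≤ x) (hxU : 3 * x + 1 ≤ U) (hU2 : 1024 ≤ U) (n : ℕ) :
    ∃ (g : Grp) (q : ℕ) (G' : Multiset Grp) (s : ℕ), g.Ok ∧ g.t + 2 ≤ U ∧ U ≤ 3 * (g.t + 2) ∧
      (∀ g' ∈ G', g'.Ok ∧ g'.t + 2 ≤ U) ∧ s1 (up G') + s * (x + 1) ≤ 60 * U ∧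
      pts (Multiset.replicate q g + G') + Multiset.replicate s x = Multiset.replicate n x := by
  have hkx : 1 ≤ kk x := by
    have := two_mul_kk x
    nlinarith
  have hkx2 := two_mul_kk x
  have hkU := two_mul_kk U
  rcases Nat.lt_or_ge (8 * x ^ 2) (3 * U) with h0 | h0
  · -- small multiplicity
    obtain ⟨hn1, hn2⟩ := small_num hU2 h0
    obtain ⟨b, hb⟩ : ∃ b, b = kk U / kk x := ⟨_, rfl⟩
    have h1 : b * kk x ≤ kk U := by rw [hb]; exact Nat.div_mul_le_self _ _
    have h2 : kk U < b * kk x + kk x := by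
      have := Nat.lt_div_mul_add (a := kk U) (b := kk x) (by omega)
      rw [hb]
      omega
    have hbΛ : 106 * (x + 3) ≤ b := by
      rw [hb, Nat.le_div_iff_mul_le (by omega)]
      nlinarith
    have h4 : 2 ≤ b * kk x := by nlinarith
    obtain ⟨T, hT2, hT3, hT4⟩ := exists_T h4
    have hTU : T ≤ U := by
      by_contra hcon
      have : U ≤ T - 1 := by omega
      have := kk_mono this
      omega
    have hUT : U ≤ 3 * T := by
      have hkT := two_mul_kk T
      by_contra hcon
      have h5 : 3 * T < U := by omega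
      nlinarith
    have hgok := gH_ok (hx_106 hx hbΛ) hT2 hT3.le hT4
    have hdm := Nat.div_add_mod n b
    have hlt := Nat.mod_lt n (show 0 < b by omega)
    have hq : pts (Multiset.replicate (n / b) (gH x b T)) =
        Multiset.replicate (b * (n / b)) x := by
      rw [pts, Multiset.map_replicate, Multiset.sum_replicate]
      show _ • Multiset.replicate b x = _
      rw [Multiset.nsmul_replicate]
      congr 1
      ring
    rcases Nat.lt_or_ge (n % b) (106 * (x + 3)) with h6 | h6
    · refine ⟨gH x b T, n / b, 0, n % b, hgok, ?_, ?_, by simp, ?_, ?_⟩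
      · show T - 2 + 2 ≤ U
        omega
      · show U ≤ 3 * (T - 2 + 2)
        omega
      · have h7 : s1 (up 0) = 0 := by simp [s1, up]
        have h8 : n % b * (x + 1) ≤ 106 * (x + 3) * (x + 1) := Nat.mul_le_mul_right _ h6.le
        omega
      · rw [add_zero, hq, ← Multiset.replicate_add, hdm]
    · have h7 : n % b * kk x ≤ kk U := (Nat.mul_le_mul_right _ hlt.le).trans h1
      have h8 : 2 ≤ n % b * kk x := by nlinarith
      obtain ⟨T', hT2', hT3', hT4'⟩ := exists_T h8
      have hTU' : T' ≤ U := by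
        by_contra hcon
        have : U ≤ T' - 1 := by omega
        have := kk_mono this
        omega
      refine ⟨gH x b T, n / b, {gH x (n % b) T'}, 0, hgok, ?_, ?_, ?_, ?_, ?_⟩
      · show T - 2 + 2 ≤ U
        omega
      · show U ≤ 3 * (T - 2 + 2)
        omega
      · intro g' hg'
        rw [Multiset.mem_singleton] at hg'
        subst hg'
        refine ⟨gH_ok (hx_106 hx h6) hT2' hT3'.le hT4', ?_⟩
        show T' - 2 + 2 ≤ U
        omega
      · have h9 : s1 (up {gH x (n % b) T'}) = T' + 1 := by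
          simp only [s1, up, Multiset.map_singleton, Multiset.sum_singleton]
          show T' - 2 + 2 + 1 = T' + 1
          omega
        omega
      · rw [Multiset.replicate_zero, add_zero, pts_add, hq]
        have e1 : pts {gH x (n % b) T'} = Multiset.replicate (n % b) x := by
          simp [pts, gH]
        rw [e1, ← Multiset.replicate_add, hdm]
  · -- large multiplicity
    obtain ⟨k, hL, h1, h2⟩ := top_large hx hxU h0
    have hT : TT x (k + 1) = 3 * TT x k + 1 := rfl
    have hTx := le_TT x k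
    have hdm := Nat.div_add_mod n (9 ^ (k + 1))
    have hlt := Nat.mod_lt n (show 0 < 9 ^ (k + 1) from Nat.pow_pos (by norm_num))
    obtain ⟨G, s, h3, _, h5, h6⟩ := digits hx k (fun j hj => LCond_mono hL j (by omega)) _ hlt
    refine ⟨gL x (k + 1), n / 9 ^ (k + 1), G, s, gL_ok hx hL, ?_, ?_, ?_, ?_, ?_⟩
    · show TT x (k + 1) - 2 + 2 ≤ U
      omega
    · show U ≤ 3 * (TT x (k + 1) - 2 + 2)
      omega
    · intro g hg
      obtain ⟨h7, h8⟩ := h3 g hg
      exact ⟨h7, by omega⟩
    · omega
    · have h7 : pts (Multiset.replicate (n / 9 ^ (k + 1)) (gL x (k + 1))) =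
          Multiset.replicate (9 ^ (k + 1) * (n / 9 ^ (k + 1))) x := by
        rw [pts, Multiset.map_replicate, Multiset.sum_replicate]
        show _ • Multiset.replicate (9 ^ (k + 1)) x = _
        rw [Multiset.nsmul_replicate]
        congr 1
        ring
      rw [pts_add, add_assoc, h6, h7, ← Multiset.replicate_add, hdm]

end Pool.Agent.KD
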