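import Pool.Agent.KD.StripK
import Pool.Agent.KD.AllD
import Pool.Agent.helper61.EX.StripP

set_option autoImplicit false

/-!
# Exact non-speciality near virtual dimension zero, given the leaves

`mn`: points with multiplicities in `S` (`k` values, at most `M`), `Ex`: other points. After the
collisions of four equal points the systems outside a thin strip are reduced by `exists_plan` to
leaves `Y + Ex`, `Y` rich: many elements in `[V, U]` with at most `2 k` distinct values.
-/

namespace Pool.Agent.KD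

open Pool.Agent.helper89.Segre Pool.Agent.SH9 Pool.Agent.helper61.EX

/-- `N` elements in `[V, U]` with at most `k` distinct values -/
def Rich (V U k N : ℕ) (Y : Multiset ℕ) : Prop :=
  ∃ fs ≤ Y, (∀ x ∈ fs, V ≤ x ∧ x ≤ U) ∧ fs.toFinset.card ≤ k ∧ N ≤ Multiset.card fs

/-- four equal points, all values in `S` -/
theorem exists_g4S (S : Finset ℕ) (mn : Multiset ℕ) (h : ∀ x ∈ mn, x ∈ S) :
    ∃ (G : Multiset Grp) (R : Multiset ℕ), (∀ g ∈ G, ∃ x ∈ S, g = g4 x) ∧
      (∀ x ∈ R, x ∈ S) ∧ pts G + R = mn ∧ Multiset.card R ≤ 3 * S.card ∧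
      mn.sum = 4 * sg G + R.sum := by
  classical
  refine ⟨∑ x ∈ S, Multiset.replicate (mn.count x / 4) (g4 x),
    ∑ x ∈ S, Multiset.replicate (mn.count x % 4) x, ?_, ?_, ?_, ?_, ?_⟩
  · intro g hg
    obtain ⟨x, hx, hg⟩ := (mem_sum_iff S _ g).mp hg
    exact ⟨x, hx, Multiset.eq_of_mem_replicate hg⟩
  · intro y hy
    obtain ⟨x, hx, hy⟩ := (mem_sum_iff S _ y).mp hy
    rw [Multiset.eq_of_mem_replicate hy]
    exact hx
  · conv_rhs => rw [← sum_replicate_count S mn]
    have h1 : mn.filter (fun x => x ∉ S) = 0 := by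
      rw [Multiset.filter_eq_nil]
      intro x hx hxS
      exact hxS (h x hx)
    rw [h1, add_zero, pts_sum, ← Finset.sum_add_distrib]
    refine Finset.sum_congr rfl fun x _ => ?_
    rw [pts_replicate_g4, ← Multiset.replicate_add, Nat.div_add_mod]
  · rw [card_sum']
    calc ∑ x ∈ S, Multiset.card (Multiset.replicate (mn.count x % 4) x) ≤ ∑ _x ∈ S, 3 :=
          Finset.sum_le_sum fun x _ => by
            rw [Multiset.card_replicate]
            omega
      _ = 3 * S.card := by rw [Finset.sum_const, smul_eq_mul, mul_comm]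
  · conv_lhs => rw [← sum_replicate_count S mn]
    have h1 : mn.filter (fun x => x ∉ S) = 0 := by
      rw [Multiset.filter_eq_nil]
      intro x hx hxS
      exact hxS (h x hx)
    have h2 : ∀ f : ℕ → Multiset ℕ, (∑ x ∈ S, f x).sum = ∑ x ∈ S, (f x).sum := by
      intro f
      exact map_sum Multiset.sumAddMonoidHom f S
    have h3 : sg (∑ x ∈ S, Multiset.replicate (mn.count x / 4) (g4 x)) =
        ∑ x ∈ S, sg (Multiset.replicate (mn.count x / 4) (g4 x)) := by
      clear h h1 h2
      induction S using Finset.induction_on with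
      | empty => simp [sg]
      | insert a S ha ih => rw [Finset.sum_insert ha, Finset.sum_insert ha, sg_add, ih]
    rw [h1, add_zero, h2, h2, h3, Finset.mul_sum, ← Finset.sum_add_distrib]
    refine Finset.sum_congr rfl fun x _ => ?_
    rw [sg_replicate_g4, Multiset.sum_replicate, Multiset.sum_replicate, smul_eq_mul, smul_eq_mul]
    conv_lhs => rw [← Nat.div_add_mod (mn.count x) 4]
    ring

lemma Plan.mono {U k k' e e' : ℕ} {ms : Multiset ℕ} {F P : Multiset Grp} {R : Multiset ℕ}
    (h : Plan U k e ms F P R) (hk : k ≤ k') (he : e ≤ e') : Plan U k' e' ms F P R :=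
  ⟨h.okF, h.tF, h.tF', h.okP, h.tP, h.hk.trans hk, h.hR, h.he.trans he, h.hms⟩

lemma rh_g4 {A : Multiset Grp} (h : ∀ g ∈ A, ∃ x, 1 ≤ x ∧ g = g4 x) :
    2 * rh A ≤ cd (pts A) ∧ 4 * sg A ≤ cd (pts A) := by
  induction A using Multiset.induction_on with
  | empty => simp [rh, sg]
  | cons g A ih =>
    obtain ⟨h1, h1'⟩ := ih (fun x hx => h x (Multiset.mem_cons_of_mem hx))
    obtain ⟨x, hx, rfl⟩ := h g (Multiset.mem_cons_self _ _)
    have h2 : cd (g4 x).gs = 4 * kk x := by
      show cd (Multiset.replicate 4 x) = _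
      rw [cd_replicate]
    have h3 := two_mul_kk x
    have h4 : (g4 x).ρ = x + 1 := rfl
    have h5 : (g4 x).σ = x := rfl
    rw [rh_cons, sg_cons, pts_cons, cd_add, h2, h4, h5]
    constructor <;> nlinarith

lemma cd_le_sum {M : ℕ} (ms : Multiset ℕ) (h : ∀ x ∈ ms, x ≤ M) :
    2 * cd ms ≤ (M + 1) * ms.sum := by
  induction ms using Multiset.induction_on with
  | empty => simp [cd]
  | cons x ms ih =>
    have h1 := ih (fun y hy => h y (Multiset.mem_cons_of_mem hy))
    have h2 := h x (Multiset.mem_cons_self _ _)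
    have h3 := two_mul_kk x
    rw [cd_cons, Multiset.sum_cons]
    nlinarith

lemma s1_le_card {M : ℕ} (R : Multiset ℕ) (h : ∀ x ∈ R, x ≤ M) :
    s1 R ≤ Multiset.card R * (M + 1) := by
  induction R using Multiset.induction_on with
  | empty => simp [s1]
  | cons x R ih =>
    have h1 := ih (fun y hy => h y (Multiset.mem_cons_of_mem hy))
    have h2 := h x (Multiset.mem_cons_self _ _)
    rw [s1_cons, Multiset.card_cons]
    nlinarith

lemma cd_le_card' {M : ℕ} (R : Multiset ℕ) (h : ∀ x ∈ R, x ≤ M) :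
    2 * cd R ≤ Multiset.card R * (M * (M + 1)) := by
  induction R using Multiset.induction_on with
  | empty => simp [cd]
  | cons x R ih =>
    have h1 := ih (fun y hy => h y (Multiset.mem_cons_of_mem hy))
    have h2 := h x (Multiset.mem_cons_self _ _)
    have h3 := two_mul_kk x
    have h4 : x * x ≤ M * M := Nat.mul_le_mul h2 h2
    rw [cd_cons, Multiset.card_cons]
    nlinarith

lemma sum_le_sq (Y : Multiset ℕ) : sq Y = 2 * cd Y - Y.sum := by
  have := sq_cd Y
  omega

section

variable {V k M N d q sx : ℕ} {S : Finset ℕ} {Ex : Multiset ℕ}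

/-- the leaves are non-special -/
structure Leaves (V k N d T : ℕ) (Ex : Multiset ℕ) : Prop where
  hR : ∀ Y : Multiset ℕ, (∀ x ∈ Y, x ≤ 3 * V + 3) → Rich (V + 1) (3 * V + 3) k N Y →
    cd (Y + Ex) + s1 (Y + Ex) < (d + 5).choose 2 → 2 * cd (Y + Ex) + s1 (Y + Ex) < (d + 3) ^ 2 →
    Good ℂ (tri d) (Y + Ex) (cd (Y + Ex))
  hE : ∀ Y : Multiset ℕ, (∀ x ∈ Y, x ≤ 3 * V + 3) → Rich V (3 * V + 3) k N Y →
    cd (Y + Ex) ≤ T → d ^ 2 < sq (Y + Ex) → E d (Y + Ex)

/-- the classes after the collisions of four equal points -/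
lemma leaf_plan (hV : 341 ≤ V) (hS : ∀ x ∈ S, 1 ≤ x ∧ x ≤ M) (hM : 6 * M + 4 ≤ 3 * V + 3)
    {A B : Multiset Grp} (hA : ∀ g ∈ A, ∃ x ∈ S, g = g4 x) (hB : ∀ g ∈ B, ∃ x ∈ S, g = g4 x) :
    ∃ (F P : Multiset Grp) (R : Multiset ℕ), Plan (3 * V + 3) (2 * S.card)
      (120 * (3 * V + 3) * S.card) (up A + lo B) F P R := by
  classical
  have hval : ∀ y ∈ up A + lo B, y ∈ S.image (fun x => 2 * x) ∪ S.image (fun x => 2 * x + 1) := by
    intro y hy
    rcases Multiset.mem_add.mp hy with hy | hy
    · obtain ⟨g, hg, rfl⟩ := Multiset.mem_map.mp hy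
      obtain ⟨x, hx, rfl⟩ := hA g hg
      refine Finset.mem_union_right _ (Finset.mem_image.mpr ⟨x, hx, ?_⟩)
      have := (hS x hx).1
      show 2 * x + 1 = 2 * x - 1 + 2
      omega
    · obtain ⟨g, hg, rfl⟩ := Multiset.mem_map.mp hy
      obtain ⟨x, hx, rfl⟩ := hB g hg
      refine Finset.mem_union_left _ (Finset.mem_image.mpr ⟨x, hx, ?_⟩)
      have := (hS x hx).1
      show 2 * x = 2 * x - 1 + 1
      omega
  have hX : ∀ y ∈ S.image (fun x => 2 * x) ∪ S.image (fun x => 2 * x + 1),
      1 ≤ y ∧ 3 * y + 1 ≤ 3 * V + 3 := by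
    intro y hy
    rcases Finset.mem_union.mp hy with hy | hy
    · obtain ⟨x, hx, rfl⟩ := Finset.mem_image.mp hy
      have := hS x hx
      omega
    · obtain ⟨x, hx, rfl⟩ := Finset.mem_image.mp hy
      have := hS x hx
      omega
  have hcard : (S.image (fun x => 2 * x) ∪ S.image (fun x => 2 * x + 1)).card ≤ 2 * S.card := by
    have h1 := Finset.card_union_le (S.image (fun x => 2 * x)) (S.image (fun x => 2 * x + 1))
    have h2 := Finset.card_image_le (s := S) (f := fun x => 2 * x)
    have h3 := Finset.card_image_le (s := S) (f := fun x => 2 * x + 1)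
    omega
  obtain ⟨F, P, R, h⟩ := exists_plan (U := 3 * V + 3) (by omega) _ hX (up A + lo B)
    (fun y hy => by have := hX y (hval y hy); omega)
  refine ⟨F, P, R, h.mono hcard ?_⟩
  have h1 : (up A + lo B).filter
      (fun x => x ∉ S.image (fun x => 2 * x) ∪ S.image (fun x => 2 * x + 1)) = 0 := by
    rw [Multiset.filter_eq_nil]
    intro x hx hxS
    exact hxS (hval x hx)
  rw [h1]
  have h2 : s1 0 = 0 := by simp [s1]
  rw [h2, add_zero]
  calc 60 * (3 * V + 3) * _ ≤ 60 * (3 * V + 3) * (2 * S.card) := Nat.mul_le_mul_left _ hcard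
    _ = 120 * (3 * V + 3) * S.card := by ring

/-- the system of a leaf: everything which follows from the plan -/
lemma leaf_facts (hV : 341 ≤ V) {U k e : ℕ} (hU : U = 3 * V + 3) {ms : Multiset ℕ}
    {F P : Multiset Grp} {R : Multiset ℕ} (h : Plan U k e ms F P R)
    (hN : N * (U * (U + 1)) + U * e ≤ 2 * cd ms) (hq : 201 * cd ms ≤ 100 * V * q) :
    s1 (up F) ≤ q ∧ N ≤ Multiset.card F := by
  subst hU
  have h1 := full_card F h.okF h.tF
  have h2 := rest_le P h.okP h.tP
  have h3 := rest_le' R h.hR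
  have h4 : 2 * cd ms = 2 * cd (pts F) + 2 * cd (pts P) + 2 * cd R := by
    rw [← h.hms, cd_add, cd_add]
    ring
  have h5 : (3 * V + 3) * (s1 (up P) + s1 R) ≤ (3 * V + 3) * e := Nat.mul_le_mul_left _ h.he
  rw [mul_add (3 * V + 3)] at h5
  constructor
  · have h6 := full_le hV F h.okF (fun g hg => by have := h.tF' g hg; omega)
    have h7 : 100 * V * s1 (up F) ≤ 100 * V * q := by omega
    exact Nat.le_of_mul_le_mul_left h7 (by omega)
  · have h7 : (3 * V + 3) * (3 * V + 3 + 1) * N ≤
        (3 * V + 3) * (3 * V + 3 + 1) * Multiset.card F := by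
      have h8 : N * ((3 * V + 3) * (3 * V + 3 + 1)) = (3 * V + 3) * (3 * V + 3 + 1) * N := by ring
      have h9 : Multiset.card F * ((3 * V + 3) * (3 * V + 3 + 1)) =
        (3 * V + 3) * (3 * V + 3 + 1) * Multiset.card F := by ring
      omega
    exact Nat.le_of_mul_le_mul_left h7 (by positivity)

/-- regular leaves -/
lemma reg_leaf (hV : 341 ≤ V) {e T : ℕ} (L : Leaves V k N d T Ex) {ms R0 : Multiset ℕ}
    {F P : Multiset Grp} {R : Multiset ℕ} (h : Plan (3 * V + 3) k e ms F P R)
    (hq : s1 (up F) ≤ q) (hNF : N ≤ Multiset.card F) (hR0 : ∀ x ∈ R0, x ≤ 3 * V + 3)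
    (hEx : s1 Ex ≤ sx + 3 * d)
    (hcd : cd (ms + (R0 + Ex)) + (2 * q + 2 * e + s1 R0 + sx) ≤ (tri d).card) :
    Good ℂ (tri d) (ms + (R0 + Ex)) (cd (ms + (R0 + Ex))) := by
  have hok : ∀ g ∈ F + P, g.Ok := by
    intro g hg
    rcases Multiset.mem_add.mp hg with hg | hg
    · exact h.okF g hg
    · exact h.okP g hg
  have hms : pts (F + P) + (R + (R0 + Ex)) = ms + (R0 + Ex) := by
    rw [pts_add, ← add_assoc, h.hms]
  have hcu := cd_up hok
  have hrh := rh_le hok
  have hs1 : s1 (up (F + P)) = s1 (up F) + s1 (up P) := by rw [up_add', s1_add]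
  have he := h.he
  have hC := card_tri d
  have h2c := Pool.Agent.helper25.ST.two_choose d
  have h2c' := Pool.Agent.helper25.ST.two_choose (d + 3)
  have e35 : d + 3 + 2 = d + 5 := rfl
  rw [e35] at h2c'
  have hY : up (F + P) + (R + (R0 + Ex)) = (up (F + P) + R + R0) + Ex := by abel
  have hcdY : cd ((up (F + P) + R + R0) + Ex) = cd (ms + (R0 + Ex)) + rh (F + P) := by
    have e1 := cd_add (up (F + P)) (R + (R0 + Ex))
    have e2 := cd_add (pts (F + P)) (R + (R0 + Ex))
    rw [hms] at e2
    rw [← hY]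
    omega
  have hs1Y : s1 ((up (F + P) + R + R0) + Ex) =
      s1 (up F) + s1 (up P) + s1 R + s1 R0 + s1 Ex := by
    rw [s1_add, s1_add, s1_add, hs1]
  have key : Good ℂ (tri d) (up (F + P) + (R + (R0 + Ex))) (cd (up (F + P) + (R + (R0 + Ex)))) := by
    rw [hY]
    refine L.hR _ ?_ ?_ ?_ ?_
    · intro x hx
      rcases Multiset.mem_add.mp hx with hx | hx
      · rcases Multiset.mem_add.mp hx with hx | hx
        · obtain ⟨g, hg, rfl⟩ := Multiset.mem_map.mp hx
          rcases Multiset.mem_add.mp hg with hg | hg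
          · exact h.tF g hg
          · exact h.tP g hg
        · exact h.hR x hx
      · exact hR0 x hx
    · refine ⟨up F, ?_, ?_, ?_, ?_⟩
      · rw [up_add', add_assoc, add_assoc]
        exact Multiset.le_add_right _ _
      · intro x hx
        obtain ⟨g, hg, rfl⟩ := Multiset.mem_map.mp hx
        have h1 := h.tF g hg
        have h2 := h.tF' g hg
        omega
      · refine le_trans ?_ h.hk
        have e1 : (up F).toFinset = (F.map Grp.t).toFinset.image (· + 2) := by
          ext x
          simp [up, Multiset.mem_toFinset, Finset.mem_image]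
        rw [e1]
        exact Finset.card_image_le
      · rw [up, Multiset.card_map]
        exact hNF
    · rw [hcdY, hs1Y]
      nlinarith
    · rw [hcdY, hs1Y]
      nlinarith
  have h6 := good_of_up (F + P) (R + (R0 + Ex)) hok key
  rw [hms] at h6
  exact h6

/-- empty leaves -/
lemma emp_leaf (hV : 341 ≤ V) {e T : ℕ} (L : Leaves V k N d T Ex) {ms R0 : Multiset ℕ}
    {F P : Multiset Grp} {R : Multiset ℕ} (h : Plan (3 * V + 3) k e ms F P R)
    (hq : s1 (up F) ≤ q) (hNF : N ≤ Multiset.card F) (hR0 : ∀ x ∈ R0, x ≤ 3 * V + 3)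
    (hEx : s1 Ex ≤ sx + 3 * d) (hT : cd (ms + (R0 + Ex)) ≤ T)
    (hcd : (tri d).card + (2 * q + 2 * e + s1 R0 + sx) ≤ cd (ms + (R0 + Ex))) :
    E d (ms + (R0 + Ex)) := by
  have hok : ∀ g ∈ F + P, g.Ok := by
    intro g hg
    rcases Multiset.mem_add.mp hg with hg | hg
    · exact h.okF g hg
    · exact h.okP g hg
  have hms : pts (F + P) + (R + (R0 + Ex)) = ms + (R0 + Ex) := by
    rw [pts_add, ← add_assoc, h.hms]
  have hcu := cd_lo hok
  have hsg := sg_le hok
  have hs1 : s1 (up (F + P)) = s1 (up F) + s1 (up P) := by rw [up_add', s1_add]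
  have he := h.he
  have hC := card_tri d
  have h2c := Pool.Agent.helper25.ST.two_choose d
  have hY : lo (F + P) + (R + (R0 + Ex)) = (lo (F + P) + R + R0) + Ex := by abel
  have hcdY : cd ((lo (F + P) + R + R0) + Ex) + sg (F + P) = cd (ms + (R0 + Ex)) := by
    have e1 := cd_add (lo (F + P)) (R + (R0 + Ex))
    have e2 := cd_add (pts (F + P)) (R + (R0 + Ex))
    rw [hms] at e2
    rw [← hY]
    omega
  have hsum : ((lo (F + P) + R + R0) + Ex).sum ≤
      s1 (up F) + s1 (up P) + s1 R + s1 R0 + s1 Ex := by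
    rw [Multiset.sum_add, Multiset.sum_add, Multiset.sum_add]
    have h1 := lo_sum_le (F + P)
    have h2 := sum_le_s1 R
    have h3 := sum_le_s1 R0
    have h4 := sum_le_s1 Ex
    omega
  have hsq := sq_cd ((lo (F + P) + R + R0) + Ex)
  have key : E d (lo (F + P) + (R + (R0 + Ex))) := by
    rw [hY]
    refine L.hE _ ?_ ?_ ?_ ?_
    · intro x hx
      rcases Multiset.mem_add.mp hx with hx | hx
      · rcases Multiset.mem_add.mp hx with hx | hx
        · obtain ⟨g, hg, rfl⟩ := Multiset.mem_map.mp hx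
          rcases Multiset.mem_add.mp hg with hg | hg
          · have := h.tF g hg
            omega
          · have := h.tP g hg
            omega
        · exact h.hR x hx
      · exact hR0 x hx
    · refine ⟨lo F, ?_, ?_, ?_, ?_⟩
      · rw [lo_add, add_assoc, add_assoc]
        exact Multiset.le_add_right _ _
      · intro x hx
        obtain ⟨g, hg, rfl⟩ := Multiset.mem_map.mp hx
        have h1 := h.tF g hg
        have h2 := h.tF' g hg
        omega
      · refine le_trans ?_ h.hk
        have e1 : (lo F).toFinset = (F.map Grp.t).toFinset.image (· + 1) := by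
          ext x
          simp [lo, Multiset.mem_toFinset, Finset.mem_image]
        rw [e1]
        exact Finset.card_image_le
      · rw [lo, Multiset.card_map]
        exact hNF
    · omega
    · nlinarith
  have h6 := E_of_lo (F + P) (R + (R0 + Ex)) hok key
  rw [hms] at h6
  exact h6

end

end Pool.Agent.KD
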