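import Pool.Agent.helper25.CF.Num

set_option autoImplicit false

/-!
# Module V1 (project KD, nefness for few distinct weights): curves which violate the bound

As `Pool.Agent.helper25.CF.num_bound_real` (CF/Num.lean: copy its beginning: `v1`, `hCS`, `sw'`, `hvar`,
`almost_const`), but for a class `A` of any size with `#A - 1 ≥ 16 R²`, all weights at most `R`.

`S = ∑ w μ`, `M = ∑ μ²`, `s = S / r`, `V = ∑ (μ - s w)² = M - S² / r ≥ 0`, `S² / r > (1 + 1/z) D²`.
* `xu`: `V < μ j - D² / z` for `μ j > 0` (so also `D² < z μ j`).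
* `sw` and `almost_const` (as in CF/Num): all `μ i`, `i ∈ A` except one `i0`, are equal to `x`.
* `x > 0`: `16 (x - s)² ≤ (#A - 1) (x - s)² ≤ V < x ≤ x²`, so `s ≥ 3 x / 4`; `s² r = S² / r ≤ M ≤ D² + x`
  and `16 x² ≤ (#A - 1) x² ≤ M ≤ D² + x`, so `15 x ≤ 15 x² ≤ D²`: `r x² ≤ (16/9) (D² + x) ≤ 2 D²`.
* `x = 0` is impossible: there is `j` with `μ j > 0` (as `S > 0`). `t = √V`: `16 R² s² ≤ (#A-1) s² ≤ V`, so
  `s R ≤ t / 4`; `μ j ≤ s w j + t ≤ 5 t / 4` and `t² = V < μ j`, so `t < 5/4`, `μ j < 2`, `μ j = 1`, so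
  `V < 1`, `s R ≤ 1/4`. For every `j` with `μ j > 0`: `μ j = 1` and `(μ j - s w j)² ≥ (3/4)²`, so there
  are at most `(16/9) V < 2` of them: exactly one, `S ≤ R`, but `S² > r D² ≥ #A ≥ 16 R² + 1`.
-/

namespace Pool.Agent.KD

open Finset Pool.Agent.helper25.Exp

theorem viol {h : ℕ} (A : Finset (Fin h)) (w : Fin h → ℝ) (hw0 : ∀ i, 0 ≤ w i)
    (hw1 : ∀ i ∈ A, w i = 1) {R : ℝ} (hR : 1 ≤ R) (hwR : ∀ i, w i ≤ R)
    (D : ℕ) (r : ℝ) (hr : ∑ i, w i ^ 2 = r) (hA : 16 * R ^ 2 + 1 ≤ A.card) (hD : 0 < D)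
    (z : ℝ) (hz : 0 < z) (μ : Fin h → ℕ)
    (xu : ∀ j, 0 < μ j → ∑ i, μ i ^ 2 ≤ D ^ 2 + μ j)
    (sw : ∀ i j, μ i ≠ μ j → ∑ k, (μ k : ℤ) ^ 2 ≤ (D : ℤ) ^ 2 + ((μ i : ℤ) - μ j) ^ 2)
    (viol : (z + 1) * r * (D : ℝ) ^ 2 < z * (∑ i, w i * μ i) ^ 2) :
    ∃ i0 ∈ A, ∃ x : ℕ, 0 < x ∧ (∀ i ∈ A, i ≠ i0 → μ i = x) ∧
      r * (x : ℝ) ^ 2 ≤ 2 * (D : ℝ) ^ 2 ∧ (D : ℝ) ^ 2 < z * x := by
  have hDR : (0 : ℝ) < D := by exact_mod_cast hD
  have hD1 : (1 : ℝ) ≤ (D : ℝ) ^ 2 := one_le_pow₀ (by exact_mod_cast hD)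
  have hR2 : (1 : ℝ) ≤ R ^ 2 := one_le_pow₀ hR
  have hA17R : (17 : ℝ) ≤ A.card := by linarith
  have hA17 : 17 ≤ A.card := by exact_mod_cast hA17R
  have hAr : (A.card : ℝ) ≤ r := by
    rw [← hr]
    have e1 : (A.card : ℝ) = ∑ i ∈ A, w i ^ 2 := by
      rw [Finset.card_eq_sum_ones, Nat.cast_sum]
      refine Finset.sum_congr rfl fun i hi => ?_
      rw [hw1 i hi]; simp
    rw [e1]
    exact Finset.sum_le_sum_of_subset_of_nonneg (Finset.subset_univ _) fun _ _ _ => sq_nonneg _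
  have hrR : 0 < r := by linarith
  have hrw : ∑ i, w i ^ 2 = r := hr
  set S : ℝ := ∑ i, w i * μ i with hS
  set M : ℝ := ∑ i, (μ i : ℝ) ^ 2 with hM
  have hS0 : 0 ≤ S := Finset.sum_nonneg fun i _ => mul_nonneg (hw0 i) (Nat.cast_nonneg _)
  have v1 : r * (D : ℝ) ^ 2 < S ^ 2 := by
    have h1 : (z + 1) * (r * (D : ℝ) ^ 2) < (z + 1) * S ^ 2 := by
      have : (0 : ℝ) ≤ S ^ 2 := by positivity
      nlinarith
    exact lt_of_mul_lt_mul_left h1 (by linarith)
  have hCS : S ^ 2 ≤ r * M := by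
    rw [← hrw]
    exact Finset.sum_mul_sq_le_sq_mul_sq _ _ _
  have hD2 : (D : ℝ) ^ 2 < S ^ 2 / r := by
    rw [lt_div_iff₀ hrR]; linarith
  have sw' : ∀ i j, μ i ≠ μ j → M - S ^ 2 / r < ((μ i : ℝ) - μ j) ^ 2 := by
    intro i j hij
    have h1 : M ≤ (D : ℝ) ^ 2 + ((μ i : ℝ) - μ j) ^ 2 := by
      have := sw i j hij
      rw [hM]
      exact_mod_cast this
    linarith
  have xu' : ∀ j, 0 < μ j → M ≤ (D : ℝ) ^ 2 + μ j := by
    intro j hj
    have := xu j hj
    rw [hM]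
    exact_mod_cast this
  have hvar : ∑ l, ((μ l : ℝ) - S / r * w l) ^ 2 = M - S ^ 2 / r := by
    have h1 : ∀ l, ((μ l : ℝ) - S / r * w l) ^ 2 =
        (μ l : ℝ) ^ 2 - 2 * (S / r) * (w l * μ l) + (S / r) ^ 2 * w l ^ 2 := by
      intro l; ring
    rw [Finset.sum_congr rfl fun l _ => h1 l, Finset.sum_add_distrib, Finset.sum_sub_distrib,
      ← Finset.mul_sum, ← Finset.mul_sum, hrw, ← hS, ← hM]
    field_simp
    ring
  set s : ℝ := S / r with hs
  set V : ℝ := M - S ^ 2 / r with hV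
  have hs0 : 0 ≤ s := by rw [hs]; positivity
  have hV0 : 0 ≤ V := by rw [← hvar]; exact Finset.sum_nonneg fun _ _ => sq_nonneg _
  have hVx : ∀ j, 0 < μ j → V < μ j := by
    intro j hj
    have := xu' j hj
    rw [hV]; linarith
  obtain ⟨i0, hi0, x, hx⟩ := almost_const A (by omega) μ (by
    intro i hi j hj k hk l hl h1 h2 h3 h4 hij hkl
    have hij' : i ≠ j := fun h => hij (by rw [h])
    have hkl' : k ≠ l := fun h => hkl (by rw [h])
    have hp := two_pairs (fun l => (μ l : ℝ) - s * w l) hij' hkl' h1 h2 h3 h4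
    simp only [hw1 i hi, hw1 j hj, hw1 k hk, hw1 l hl, mul_one] at hp
    rw [hvar] at hp
    have s1 := sw' i j hij
    have s2 := sw' k l hkl
    have e1 : (μ i : ℝ) - s - (μ j - s) = μ i - μ j := by ring
    have e2 : (μ k : ℝ) - s - (μ l - s) = μ k - μ l := by ring
    rw [e1, e2] at hp
    linarith)
  have hcard : ((A.erase i0).card : ℝ) = A.card - 1 := by
    rw [Finset.card_erase_of_mem hi0, Nat.cast_sub (by omega), Nat.cast_one]
  have ha : 16 * R ^ 2 ≤ (A.card : ℝ) - 1 := by linarith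
  have hAV : ((A.card : ℝ) - 1) * ((x : ℝ) - s) ^ 2 ≤ V := by
    rw [← hcard, ← hvar]
    have h4 : ∑ i ∈ A.erase i0, ((μ i : ℝ) - s * w i) ^ 2 ≤ ∑ i, ((μ i : ℝ) - s * w i) ^ 2 :=
      Finset.sum_le_sum_of_subset_of_nonneg (Finset.subset_univ _) fun _ _ _ => sq_nonneg _
    refine le_trans (le_of_eq ?_) h4
    rw [Finset.sum_congr rfl (g := fun _ => ((x : ℝ) - s) ^ 2) fun i hi => by
      rw [hx i (Finset.mem_of_mem_erase hi) (Finset.ne_of_mem_erase hi),
        hw1 i (Finset.mem_of_mem_erase hi), mul_one],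
      Finset.sum_const, nsmul_eq_mul]
  rcases Nat.eq_zero_or_pos x with hx0 | hx0
  · exfalso
    subst hx0
    have h16 : 16 * (s * R) ^ 2 ≤ V := by
      have h1 : ((A.card : ℝ) - 1) * s ^ 2 ≤ V := by
        have : (((0 : ℕ) : ℝ) - s) ^ 2 = s ^ 2 := by push_cast; ring
        rw [this] at hAV
        exact hAV
      have h2 : 16 * R ^ 2 * s ^ 2 ≤ ((A.card : ℝ) - 1) * s ^ 2 :=
        mul_le_mul_of_nonneg_right ha (sq_nonneg _)
      nlinarith
    have hsR0 : 0 ≤ s * R := by positivity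
    -- all positive multiplicities are one
    have key : ∀ j, 0 < μ j → μ j = 1 ∧ V < 1 ∧ s * R < 1 / 4 := by
      intro j hj
      have hjR : (1 : ℝ) ≤ μ j := by exact_mod_cast hj
      have h1 : ((μ j : ℝ) - s * w j) ^ 2 ≤ V := by
        rw [← hvar]
        exact Finset.single_le_sum (f := fun l => ((μ l : ℝ) - s * w l) ^ 2)
          (fun _ _ => sq_nonneg _) (Finset.mem_univ j)
      have h2 := hVx j hj
      have h3 : s * w j ≤ s * R := mul_le_mul_of_nonneg_left (hwR j) hs0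
      have ht : Real.sqrt V ^ 2 = V := Real.sq_sqrt hV0
      have ht0 : 0 ≤ Real.sqrt V := Real.sqrt_nonneg _
      have h4 : 4 * (s * R) ≤ Real.sqrt V := by
        apply Real.le_sqrt_of_sq_le
        nlinarith
      have h5 : (μ j : ℝ) - s * w j ≤ Real.sqrt V := Real.le_sqrt_of_sq_le h1
      have h6 : (μ j : ℝ) ≤ 5 / 4 * Real.sqrt V := by linarith
      have h7 : Real.sqrt V < 5 / 4 := by
        by_contra hcon
        push Not at hcon
        nlinarith
      have h8 : (μ j : ℝ) < 2 := by linarith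
      have h9 : μ j = 1 := by
        have : μ j < 2 := by exact_mod_cast h8
        omega
      have h10 : V < 1 := by
        rw [h9] at h2
        simpa using h2
      refine ⟨h9, h10, ?_⟩
      have h11 : Real.sqrt V < 1 := by
        rw [Real.sqrt_lt' one_pos]
        simpa using h10
      linarith
    set T := univ.filter fun l => 0 < μ l with hT
    have hSpos : 0 < S := by
      by_contra hcon
      have h0 : S = 0 := le_antisymm (not_lt.1 hcon) hS0
      rw [h0] at v1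
      have : (0 : ℝ) < r * (D : ℝ) ^ 2 := by positivity
      linarith
    have hST : S = ∑ i ∈ T, w i := by
      rw [hS, hT, Finset.sum_filter]
      refine Finset.sum_congr rfl fun l _ => ?_
      split_ifs with hl
      · rw [(key l hl).1]; simp
      · have : μ l = 0 := by omega
        rw [this]; simp
    have hTne : T.Nonempty := by
      rw [Finset.nonempty_iff_ne_empty]
      intro hcon
      rw [hcon, Finset.sum_empty] at hST
      linarith
    obtain ⟨m, hm⟩ := hTne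
    have hm0 : 0 < μ m := (Finset.mem_filter.1 hm).2
    obtain ⟨-, hV1, hsR⟩ := key m hm0
    have hc : (T.card : ℝ) * (9 / 16) ≤ V := by
      rw [← hvar]
      have h4 : ∑ i ∈ T, ((μ i : ℝ) - s * w i) ^ 2 ≤ ∑ i, ((μ i : ℝ) - s * w i) ^ 2 :=
        Finset.sum_le_sum_of_subset_of_nonneg (Finset.subset_univ _) fun _ _ _ => sq_nonneg _
      refine le_trans ?_ h4
      rw [← nsmul_eq_mul]
      refine Finset.card_nsmul_le_sum _ _ _ fun i hi => ?_
      have hi0' : 0 < μ i := (Finset.mem_filter.1 hi).2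
      rw [(key i hi0').1]
      have h3 : s * w i ≤ s * R := mul_le_mul_of_nonneg_left (hwR i) hs0
      have h5 : 3 / 4 ≤ ((1 : ℕ) : ℝ) - s * w i := by push_cast; linarith
      nlinarith
    have hT1 : T.card ≤ 1 := by
      by_contra hcon
      push Not at hcon
      have : (2 : ℝ) ≤ T.card := by exact_mod_cast hcon
      linarith
    have hSR : S ≤ R := by
      rw [hST]
      calc ∑ i ∈ T, w i ≤ ∑ i ∈ T, R := Finset.sum_le_sum fun i _ => hwR i
        _ = T.card * R := by rw [Finset.sum_const, nsmul_eq_mul]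
        _ ≤ 1 * R := by
            refine mul_le_mul_of_nonneg_right ?_ (by linarith)
            exact_mod_cast hT1
        _ = R := one_mul R
    have h1 : S ^ 2 ≤ R ^ 2 := pow_le_pow_left₀ hS0 hSR 2
    have h2 : r ≤ r * (D : ℝ) ^ 2 := by nlinarith
    linarith
  · -- `x > 0`
    obtain ⟨j, hj, hji⟩ : ∃ j ∈ A, j ≠ i0 := by
      obtain ⟨j, hj⟩ : (A.erase i0).Nonempty := Finset.card_pos.1 (by
        rw [Finset.card_erase_of_mem hi0]; omega)
      exact ⟨j, Finset.mem_of_mem_erase hj, Finset.ne_of_mem_erase hj⟩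
    have hxj := hx j hj hji
    have hxR : (1 : ℝ) ≤ x := by exact_mod_cast hx0
    have h1 : M ≤ (D : ℝ) ^ 2 + x := by
      have := xu' j (by rw [hxj]; exact hx0)
      rw [hxj] at this
      exact this
    have hVlt : V < x := by
      have := hVx j (by rw [hxj]; exact hx0)
      rw [hxj] at this
      exact this
    have h2 : (D : ℝ) ^ 2 < z * x := by
      have h3 : (z + 1) * r * (D : ℝ) ^ 2 < z * r * ((D : ℝ) ^ 2 + x) := by
        refine viol.trans_le ?_
        calc z * S ^ 2 ≤ z * (r * M) := mul_le_mul_of_nonneg_left hCS hz.le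
          _ = z * r * M := by ring
          _ ≤ z * r * ((D : ℝ) ^ 2 + x) := mul_le_mul_of_nonneg_left h1 (by positivity)
      have h4 : r * (D : ℝ) ^ 2 < r * (z * x) := by nlinarith
      exact lt_of_mul_lt_mul_left h4 hrR.le
    have h3 : ((A.card : ℝ) - 1) * x ^ 2 ≤ M := by
      rw [← hcard, hM]
      have h4 : ∑ i ∈ A.erase i0, (μ i : ℝ) ^ 2 ≤ ∑ i, (μ i : ℝ) ^ 2 :=
        Finset.sum_le_sum_of_subset_of_nonneg (Finset.subset_univ _) fun _ _ _ => sq_nonneg _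
      refine le_trans (le_of_eq ?_) h4
      rw [Finset.sum_congr rfl (g := fun _ => (x : ℝ) ^ 2) fun i hi => by
        rw [hx i (Finset.mem_of_mem_erase hi) (Finset.ne_of_mem_erase hi)],
        Finset.sum_const, nsmul_eq_mul]
    have ha16 : (16 : ℝ) ≤ (A.card : ℝ) - 1 := by linarith
    have hxx : (x : ℝ) ≤ (x : ℝ) ^ 2 := by nlinarith
    -- 15 x^2 <= D^2
    have h15 : 15 * (x : ℝ) ^ 2 ≤ (D : ℝ) ^ 2 := by
      have : 16 * (x : ℝ) ^ 2 ≤ ((A.card : ℝ) - 1) * x ^ 2 :=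
        mul_le_mul_of_nonneg_right ha16 (sq_nonneg _)
      linarith
    -- s >= 3x/4
    have hs34 : 3 / 4 * (x : ℝ) ≤ s := by
      by_contra hcon
      push Not at hcon
      have h5 : 1 / 4 * (x : ℝ) ≤ x - s := by linarith
      have h6 : (1 / 4 * (x : ℝ)) ^ 2 ≤ ((x : ℝ) - s) ^ 2 :=
        pow_le_pow_left₀ (by positivity) h5 2
      have h7 : 16 * ((x : ℝ) - s) ^ 2 ≤ ((A.card : ℝ) - 1) * ((x : ℝ) - s) ^ 2 :=
        mul_le_mul_of_nonneg_right ha16 (sq_nonneg _)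
      nlinarith
    have hsr : r * s ^ 2 ≤ (D : ℝ) ^ 2 + x := by
      have e1 : r * s ^ 2 = S ^ 2 / r := by
        rw [hs]; field_simp
      rw [e1, div_le_iff₀ hrR]
      nlinarith [mul_le_mul_of_nonneg_left h1 hrR.le]
    have h9 : (3 / 4 * (x : ℝ)) ^ 2 ≤ s ^ 2 := pow_le_pow_left₀ (by positivity) hs34 2
    have h10 : r * (3 / 4 * (x : ℝ)) ^ 2 ≤ r * s ^ 2 := mul_le_mul_of_nonneg_left h9 hrR.le
    refine ⟨i0, hi0, x, hx0, hx, ?_, h2⟩
    nlinarith
end Pool.Agent.KD
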