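import Mathlib

set_option autoImplicit false

/-!
# Module V2 (project KD): the base of the induction, no condition on the weights except `w ≤ R`

`S = ∑ w μ`, `M = ∑ μ²`. `S > 0`, so some `μ j > 0`; let `μ0` be the smallest positive one, `n` the
number of positive ones. Cauchy-Schwarz: `S² ≤ r M` and `S² ≤ n R² M` (only the support counts).
`viol`: `r D² < S²` and `(1 + 1/z) D² < M ≤ D² + μ0`, so `D² < z μ0`.
`n = 1`: `M = μ0² ≤ D² + μ0`, so `μ0 ≤ D + 1 ≤ 2 D`, `S² ≤ R² μ0² ≤ 4 R² D² < r D²`, contradiction.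
`n ≥ 2`: `D² ≥ M - μ0 ≥ n μ0² - μ0 ≥ (n - 1) μ0² ≥ μ0`, so `M ≤ 2 D²`,
`n > r D² / (R² M) ≥ r / (2 R²) ≥ z + 1` and `D² ≥ (n - 1) μ0² > z μ0`, contradiction.
-/

namespace Pool.Agent.KD

open Finset

theorem base_num {h : ℕ} (w : Fin h → ℝ) (hw0 : ∀ i, 0 ≤ w i) {R : ℝ} (hR : 0 < R)
    (hwR : ∀ i, w i ≤ R) (D : ℕ) (r : ℝ) (hr : ∑ i, w i ^ 2 = r) (hrR : 4 * R ^ 2 < r) (hD : 0 < D)
    (z : ℝ) (hz : 0 < z) (hzr : 2 * R ^ 2 * (z + 1) ≤ r) (μ : Fin h → ℕ)
    (xu : ∀ j, 0 < μ j → ∑ i, μ i ^ 2 ≤ D ^ 2 + μ j)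
    (viol : (z + 1) * r * (D : ℝ) ^ 2 < z * (∑ i, w i * μ i) ^ 2) : False := by
  classical
  have hDr : (0 : ℝ) < D := by exact_mod_cast hD
  have hD1 : (1 : ℝ) ≤ D := by exact_mod_cast hD
  have hrpos : 0 < r := lt_of_le_of_lt (by positivity) hrR
  have hR2 : 0 < R ^ 2 := by positivity
  have hD2 : (0 : ℝ) < (D : ℝ) ^ 2 := by positivity
  -- the real sums
  set S : ℝ := ∑ i, w i * (μ i : ℝ) with hS
  set M : ℝ := ∑ i, (μ i : ℝ) ^ 2 with hM
  have hcs : S ^ 2 ≤ r * M := by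
    rw [hS, hM, ← hr]
    exact sum_mul_sq_le_sq_mul_sq univ w (fun i => (μ i : ℝ))
  set P : Finset (Fin h) := univ.filter (fun j => 0 < μ j) with hP
  have hSP : S = ∑ i ∈ P, w i * (μ i : ℝ) := by
    rw [hS, hP, sum_filter]
    refine sum_congr rfl fun i _ => ?_
    by_cases hi : 0 < μ i
    · rw [if_pos hi]
    · rw [if_neg hi, Nat.eq_zero_of_not_pos hi]; simp
  have hMP : M = ∑ i ∈ P, (μ i : ℝ) ^ 2 := by
    rw [hM, hP, sum_filter]
    refine sum_congr rfl fun i _ => ?_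
    by_cases hi : 0 < μ i
    · rw [if_pos hi]
    · rw [if_neg hi, Nat.eq_zero_of_not_pos hi]; simp
  have hcs2 : S ^ 2 ≤ (P.card : ℝ) * R ^ 2 * M := by
    have h1 : S ^ 2 ≤ (∑ i ∈ P, w i ^ 2) * M := by
      rw [hSP, hMP]
      exact sum_mul_sq_le_sq_mul_sq P w (fun i => (μ i : ℝ))
    have h2 : ∑ i ∈ P, w i ^ 2 ≤ (P.card : ℝ) * R ^ 2 := by
      have h3 := sum_le_card_nsmul P (fun i => w i ^ 2) (R ^ 2)
        (fun i _ => pow_le_pow_left₀ (hw0 i) (hwR i) 2)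
      rwa [nsmul_eq_mul] at h3
    have hM0 : 0 ≤ M := by rw [hM]; positivity
    exact h1.trans (mul_le_mul_of_nonneg_right h2 hM0)
  have hzrD : 0 < (z + 1) * r * (D : ℝ) ^ 2 := by positivity
  have hS2 : 0 < S ^ 2 := by
    by_contra hc
    have : S ^ 2 ≤ 0 := not_lt.mp hc
    nlinarith
  -- the support is nonempty
  have hPne : P.Nonempty := by
    by_contra hc
    rw [not_nonempty_iff_eq_empty] at hc
    rw [hSP, hc] at hS2
    simp at hS2
  obtain ⟨j, hjP, hjmin⟩ := exists_min_image P μ hPne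
  have hj0 : 0 < μ j := (mem_filter.mp hjP).2
  have hj1 : (1 : ℝ) ≤ μ j := by exact_mod_cast hj0
  have hxu : M ≤ (D : ℝ) ^ 2 + μ j := by
    have := xu j hj0
    rw [hM]
    exact_mod_cast this
  have h1 : (z + 1) * (D : ℝ) ^ 2 < z * M := by
    have h2 : (z + 1) * r * (D : ℝ) ^ 2 < z * (r * M) :=
      lt_of_lt_of_le viol (mul_le_mul_of_nonneg_left hcs hz.le)
    have h3 : r * ((z + 1) * (D : ℝ) ^ 2) < r * (z * M) := by linarith
    exact lt_of_mul_lt_mul_left h3 hrpos.le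
  have h4 : (D : ℝ) ^ 2 < z * μ j := by
    have := mul_le_mul_of_nonneg_left hxu hz.le
    linarith
  have hviol2 : (z + 1) * r * (D : ℝ) ^ 2 < z * ((P.card : ℝ) * R ^ 2 * M) :=
    lt_of_lt_of_le viol (mul_le_mul_of_nonneg_left hcs2 hz.le)
  have hcardM : (P.card : ℝ) * (μ j : ℝ) ^ 2 ≤ M := by
    have h3 := card_nsmul_le_sum P (fun i => (μ i : ℝ) ^ 2) ((μ j : ℝ) ^ 2)
      (fun i hi => by
        have : (μ j : ℝ) ≤ μ i := by exact_mod_cast hjmin i hi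
        exact pow_le_pow_left₀ (by positivity) this 2)
    rw [nsmul_eq_mul] at h3
    rw [hMP]; exact h3
  have hcpos : 0 < P.card := card_pos.mpr hPne
  rcases Nat.lt_or_ge P.card 2 with hc | hc
  · -- one point
    have hc1 : P.card = 1 := by omega
    obtain ⟨a, ha⟩ := card_eq_one.mp hc1
    have hja : j = a := by
      rw [ha] at hjP
      exact mem_singleton.mp hjP
    have hMj : M = (μ j : ℝ) ^ 2 := by
      rw [hMP, ha, sum_singleton, hja]
    have hle : (μ j : ℝ) ≤ D + 1 := by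
      by_contra hcc
      have hcc := not_le.mp hcc
      nlinarith
    have hle2 : (μ j : ℝ) ≤ 2 * D := by linarith
    have hsq : (μ j : ℝ) ^ 2 ≤ 4 * (D : ℝ) ^ 2 := by nlinarith
    rw [hc1, hMj] at hviol2
    have h5 : z * (((1 : ℕ) : ℝ) * R ^ 2 * (μ j : ℝ) ^ 2) ≤ z * (r * (D : ℝ) ^ 2) := by
      apply mul_le_mul_of_nonneg_left _ hz.le
      have h6 : R ^ 2 * (μ j : ℝ) ^ 2 ≤ R ^ 2 * (4 * (D : ℝ) ^ 2) :=
        mul_le_mul_of_nonneg_left hsq hR2.le
      have h7 : (4 * R ^ 2) * (D : ℝ) ^ 2 ≤ r * (D : ℝ) ^ 2 :=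
        mul_le_mul_of_nonneg_right hrR.le hD2.le
      push_cast
      nlinarith
    have h8 : 0 < r * (D : ℝ) ^ 2 := by positivity
    nlinarith
  · -- at least two points
    have hn : (2 : ℝ) ≤ (P.card : ℝ) := by exact_mod_cast hc
    set n : ℝ := (P.card : ℝ) with hnn
    have hjsq : (μ j : ℝ) ≤ (μ j : ℝ) ^ 2 := by nlinarith
    have h5 : (n - 1) * (μ j : ℝ) ^ 2 ≤ (D : ℝ) ^ 2 := by nlinarith
    have h6 : (μ j : ℝ) ≤ (D : ℝ) ^ 2 := by nlinarith
    have h7 : M ≤ 2 * (D : ℝ) ^ 2 := by linarith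
    have h8 : (z + 1) * r < z * (n * R ^ 2 * 2) := by
      have h9 : z * (n * R ^ 2 * M) ≤ z * (n * R ^ 2 * (2 * (D : ℝ) ^ 2)) := by
        apply mul_le_mul_of_nonneg_left _ hz.le
        exact mul_le_mul_of_nonneg_left h7 (by positivity)
      have h10 : ((z + 1) * r) * (D : ℝ) ^ 2 < (z * (n * R ^ 2 * 2)) * (D : ℝ) ^ 2 := by
        have h10a := lt_of_lt_of_le hviol2 h9
        have e : z * (n * R ^ 2 * (2 * (D : ℝ) ^ 2)) = (z * (n * R ^ 2 * 2)) * (D : ℝ) ^ 2 := by ring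
        rw [e] at h10a
        exact h10a
      exact lt_of_mul_lt_mul_right h10 hD2.le
    have h11 : (z + 1) * (z + 1) < z * n := by
      have h12 : (z + 1) * (2 * R ^ 2 * (z + 1)) ≤ (z + 1) * r :=
        mul_le_mul_of_nonneg_left hzr (by positivity)
      have h13 : (2 * R ^ 2) * ((z + 1) * (z + 1)) < (2 * R ^ 2) * (z * n) := by
        have e1 : (2 * R ^ 2) * ((z + 1) * (z + 1)) = (z + 1) * (2 * R ^ 2 * (z + 1)) := by ring
        have e2 : (2 * R ^ 2) * (z * n) = z * (n * R ^ 2 * 2) := by ring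
        rw [e1, e2]
        exact lt_of_le_of_lt h12 h8
      exact lt_of_mul_lt_mul_left h13 (by positivity)
    have h14 : z < n - 1 := by
      by_contra hcc
      have hcc := not_lt.mp hcc
      have h14a : z * n ≤ z * (z + 1) := mul_le_mul_of_nonneg_left (by linarith) hz.le
      have e : (z + 1) * (z + 1) = z * (z + 1) + (z + 1) := by ring
      linarith
    have h15 : z * (μ j : ℝ) ≤ (n - 1) * (μ j : ℝ) ^ 2 := by
      have h16 : z * (μ j : ℝ) ≤ z * (μ j : ℝ) ^ 2 := mul_le_mul_of_nonneg_left hjsq hz.le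
      have h17 : z * (μ j : ℝ) ^ 2 ≤ (n - 1) * (μ j : ℝ) ^ 2 :=
        mul_le_mul_of_nonneg_right h14.le (by positivity)
      linarith
    linarith

end Pool.Agent.KD
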