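import Pool.Agent.KD.V1
import Pool.Agent.KD.V2
import Pool.Agent.helper25.CF.Step

set_option autoImplicit false

/-!
# Module V3 (project KD): the base and the collision step for the classes of curves in the plane

`baseK`: `all_of_irredR`, then `base_num` with `xuN bez hp hF` as in `violatorR` (CF/Step.lean).
`stepK`: copy of `stepR` (CF/Step.lean) with `viol` (V1, `A = clA (K + 16) L`) in place of
`violatorR`; numerical end: `D = wdeg 1 F`, `S` as there, `z = 5 z'`: `hcoll`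
(`z' (S + 4)² ≤ (z' + 1) r D²`) and the violation `(z + 1) r D² < z S²` give (`√(1 + 1/z') - √(1 + 1/z) ≤
(1/z' - 1/z) / 2`, see `num_stepR`) `10 z' < √r D`, so `4 z² < r D²`; with `D² < z x` and
`r x² ≤ 2 D²`: `r D⁴ < z² r x² ≤ 2 z² D²`, so `r D² < 2 z²`, contradiction.
-/

namespace Pool.Agent.KD

open MvPolynomial Pool.Agent.helper5.NBS Pool.Agent.helper89.Segre Pool.Agent.helper22.SC
  Pool.Agent.helper89.Exp Pool.Agent.helper25.CF

lemma xuOne {h : ℕ} {p : Fin h → Fin 2 → ℂ} (hp : VGN one_pos p) {F : R2} (hF : Irreducible F)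
    (j : Fin h) (hj : 0 < mult (p j) F) :
    ∑ i, mult (p i) F ^ 2 ≤ wdeg 1 F ^ 2 + mult (p j) F := by
  have h1 := xuN bez hp hF j hj
  simp only [pow_two]
  simpa using h1

lemma swOne {h : ℕ} {p : Fin h → Fin 2 → ℂ} (hp : VGN one_pos p) {F : R2} (hF : Irreducible F)
    {i k : Fin h} (hik : mult (p i) F ≠ mult (p k) F) :
    ∑ l, (mult (p l) F : ℤ) ^ 2 ≤ (wdeg 1 F : ℤ) ^ 2 + ((mult (p i) F : ℤ) - mult (p k) F) ^ 2 := by
  have h1 := swapIneqN bez hp hF hik
  rw [mul_sub] at h1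
  push_cast at h1
  linarith

theorem baseK {h : ℕ} (w : Fin h → ℝ) (hw0 : ∀ i, 0 ≤ w i) {R : ℝ} (hR : 0 < R)
    (hwR : ∀ i, w i ≤ R) {r : ℝ} (hr : ∑ i, w i ^ 2 = r) (hrR : 4 * R ^ 2 < r)
    {z : ℝ} (hz : 0 < z) (hzr : 2 * R ^ 2 * (z + 1) ≤ r) : NefV 1 r w z := by
  have hr0 : 0 ≤ r := by
    rw [← hr]
    exact Finset.sum_nonneg fun i _ => sq_nonneg _
  refine ⟨TN one_pos h, TN_countable one_pos _, TN_ne one_pos _, fun p hp => ?_⟩
  have hV := VGN_of one_pos hp
  apply all_of_irredR hr0 hw0 hz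
  intro F hF
  by_contra hcon
  push Not at hcon
  rw [Nat.cast_one, one_mul] at hcon
  exact base_num w hw0 hR hwR (wdeg 1 F) r hr hrR (Pool.Agent.helper7.SC.wdeg_pos one_pos hF) z hz
    hzr (fun i => mult (p i) F) (fun j hj => xuOne hV hF j hj) hcon

/-- the numerical end of the step -/
theorem num_stepK {r z' S D x : ℝ} (hr0 : 0 < r) (hz' : 0 < z') (hS : 0 ≤ S) (hD : 0 < D)
    (hx : 0 < x) (viol : (5 * z' + 1) * r * D ^ 2 < 5 * z' * S ^ 2)
    (coll : z' * (S + 4) ^ 2 ≤ (z' + 1) * r * D ^ 2)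
    (b1 : r * x ^ 2 ≤ 2 * D ^ 2) (b2 : D ^ 2 < 5 * z' * x) : False := by
  -- `a ^ 2 = r D ^ 2`
  set a : ℝ := √r * D with ha
  have ha0 : 0 ≤ a := by positivity
  have ha2 : a ^ 2 = r * D ^ 2 := by
    rw [ha, mul_pow, Real.sq_sqrt hr0.le]
  have hz : 0 < 5 * z' := by linarith
  have h1 : √(1 + 1 / (5 * z')) * a < S := by
    apply lt_of_pow_lt_pow_left₀ 2 hS
    rw [mul_pow, Real.sq_sqrt (by positivity)]
    have : (5 * z' + 1) * a ^ 2 < 5 * z' * S ^ 2 := by rw [ha2]; linarith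
    have h2 : (1 + 1 / (5 * z')) * a ^ 2 = (5 * z' + 1) * a ^ 2 / (5 * z') := by
      field_simp
    rw [h2, div_lt_iff₀ hz]
    linarith
  have h2 : S + 4 ≤ √(1 + 1 / z') * a := by
    apply le_of_sq_le_sq _ (by positivity)
    rw [mul_pow, Real.sq_sqrt (by positivity)]
    have : z' * (S + 4) ^ 2 ≤ (z' + 1) * a ^ 2 := by rw [ha2]; linarith
    have h2 : (1 + 1 / z') * a ^ 2 = (z' + 1) * a ^ 2 / z' := by
      field_simp
    rw [h2, le_div_iff₀ hz']
    linarith
  have h3 : √(1 + 1 / z') - √(1 + 1 / (5 * z')) ≤ (1 / z' - 1 / (5 * z')) / 2 := by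
    have e1 : √(1 + 1 / z') ^ 2 = 1 + 1 / z' := Real.sq_sqrt (by positivity)
    have e2 : √(1 + 1 / (5 * z')) ^ 2 = 1 + 1 / (5 * z') := Real.sq_sqrt (by positivity)
    have e3 : 1 ≤ √(1 + 1 / z') := Real.one_le_sqrt.mpr (by
      have : 0 < 1 / z' := by positivity
      linarith)
    have e4 : 1 ≤ √(1 + 1 / (5 * z')) := Real.one_le_sqrt.mpr (by
      have : 0 < 1 / (5 * z') := by positivity
      linarith)
    have e5 : 1 / (5 * z') < 1 / z' := one_div_lt_one_div_of_lt hz' (by linarith)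
    have e6 : √(1 + 1 / (5 * z')) ≤ √(1 + 1 / z') := Real.sqrt_le_sqrt (by linarith)
    nlinarith
  have h4 : 4 < (1 / z' - 1 / (5 * z')) / 2 * a := by
    have := mul_le_mul_of_nonneg_right h3 ha0
    linarith
  have h5 : 10 * z' < a := by
    have : (1 / z' - 1 / (5 * z')) / 2 * a = 2 * a / (5 * z') := by
      field_simp
      ring
    rw [this, lt_div_iff₀ hz] at h4
    linarith
  have h6 : (10 * z') ^ 2 < r * D ^ 2 := by
    rw [← ha2]
    exact pow_lt_pow_left₀ h5 (by positivity) (by norm_num)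
  have hD2 : 0 < D ^ 2 := by positivity
  -- `r D^4 < z^2 r x^2 ≤ 2 z^2 D^2`
  have h7 : (D ^ 2) ^ 2 < (5 * z' * x) ^ 2 := pow_lt_pow_left₀ b2 hD2.le (by norm_num)
  have h8 : r * (D ^ 2) ^ 2 < (5 * z') ^ 2 * (2 * D ^ 2) := by
    calc r * (D ^ 2) ^ 2 < r * (5 * z' * x) ^ 2 := mul_lt_mul_of_pos_left h7 hr0
      _ = (5 * z') ^ 2 * (r * x ^ 2) := by ring
      _ ≤ (5 * z') ^ 2 * (2 * D ^ 2) := mul_le_mul_of_nonneg_left b1 (by positivity)
  have h9 : r * D ^ 2 < 50 * z' ^ 2 := by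
    have h10 : D ^ 2 * (r * D ^ 2) < D ^ 2 * (50 * z' ^ 2) := by
      calc D ^ 2 * (r * D ^ 2) = r * (D ^ 2) ^ 2 := by ring
        _ < (5 * z') ^ 2 * (2 * D ^ 2) := h8
        _ = D ^ 2 * (50 * z' ^ 2) := by ring
    exact lt_of_mul_lt_mul_left h10 hD2.le
  nlinarith [sq_nonneg z']

theorem stepK {K L : ℕ} {r R : ℝ} {v : Fin L → ℝ} (h0 : ∀ i, 0 ≤ v i) (hR : 4 ≤ R)
    (hvR : ∀ i, v i ≤ R) (hr : (K : ℝ) + 16 + ∑ i, v i ^ 2 = r) (hK : 16 * R ^ 2 + 1 ≤ (K : ℝ) + 16)
    {z' : ℝ} (hz' : 0 < z') (H : NefV 1 r (wv K (Fin.cons 4 v : Fin (L + 1) → ℝ)) z') :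
    NefV 1 r (wv (K + 16) v) (5 * z') := by
  classical
  have hvs : 0 ≤ ∑ i, v i ^ 2 := Finset.sum_nonneg fun i _ => sq_nonneg _
  have hK1 : (256 : ℝ) < (K : ℝ) + 16 := by nlinarith
  have hK0 : 0 < K := by
    have : (0 : ℝ) < K := by linarith
    exact_mod_cast this
  have hr' : 0 < r := by linarith
  obtain ⟨T', hT', hT'0, hT'p⟩ := H
  refine ⟨TN one_pos (K + 16 + L), TN_countable one_pos _, TN_ne one_pos _, fun p hp => ?_⟩
  have hV := VGN_of one_pos hp
  have hz : (0 : ℝ) < 5 * z' := by linarith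
  apply all_of_irredR hr'.le (wv_nonneg h0) hz
  intro F hF
  by_contra hcon
  push Not at hcon
  rw [Nat.cast_one, one_mul] at hcon
  have hwR : ∀ i, wv (K + 16) v i ≤ R := by
    intro i
    induction i using Fin.addCases with
    | left i => rw [wv_left]; linarith
    | right i => rw [wv_right]; exact hvR i
  obtain ⟨i0, hi0, x, hx, hconst, hb1, hb2⟩ :=
    viol (clA (K + 16) L) (wv (K + 16) v) (wv_nonneg h0)
      (fun i hi => wv_of_lt v (mem_clA.mp hi)) (by linarith : (1 : ℝ) ≤ R) hwR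
      (wdeg 1 F) r (by rw [sum_wv_sq]; push_cast; exact hr)
      (by rw [card_clA]; push_cast; exact hK) (Pool.Agent.helper7.SC.wdeg_pos one_pos hF)
      (5 * z') hz (fun i => mult (p i) F) (fun j hj => xuOne hV hF j hj)
      (fun i j hij => swOne hV hF hij) hcon
  -- the permuted multiplicities
  let i1 : Fin (K + 16 + L) := ⟨0, by omega⟩
  let σ : Equiv.Perm (Fin (K + 16 + L)) := Equiv.swap i0 i1
  have hi1 : i1 ∈ clA (K + 16) L := mem_clA.mpr (by simp [i1])
  have hσA : ∀ i, σ i ∈ clA (K + 16) L ↔ i ∈ clA (K + 16) L := by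
    intro i
    by_cases h1 : i = i0
    · subst h1
      simp only [σ, Equiv.swap_apply_left]
      exact iff_of_true hi1 hi0
    by_cases h2 : i = i1
    · rw [h2]
      simp only [σ, Equiv.swap_apply_right]
      exact iff_of_true hi0 hi1
    · simp only [σ, Equiv.swap_apply_of_ne_of_ne h1 h2]
  have hwσ : ∀ i, wv (K + 16) v (σ i) = wv (K + 16) v i := by
    intro i
    by_cases h1 : i = i0
    · subst h1
      simp only [σ, Equiv.swap_apply_left]
      rw [wv_of_lt v (mem_clA.mp hi1), wv_of_lt v (mem_clA.mp hi0)]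
    by_cases h2 : i = i1
    · rw [h2]
      simp only [σ, Equiv.swap_apply_right]
      rw [wv_of_lt v (mem_clA.mp hi1), wv_of_lt v (mem_clA.mp hi0)]
    · simp only [σ, Equiv.swap_apply_of_ne_of_ne h1 h2]
  set μ : Fin (K + 16 + L) → ℕ := fun i => mult (p i) F with hμ
  obtain ⟨G, hG, hG0⟩ := hV.perm (self_memN 1 p hF.ne_zero) hF.ne_zero σ
  obtain ⟨V, hv, hv0⟩ := hV.fam hG hG0
  have hvne : V ≠ 0 := by
    rintro rfl
    apply hv0
    rw [polyOf]
    apply Finset.sum_eq_zero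
    intro k _
    simp
  have hmx : ∀ i : Fin (K + 16 + L), K ≤ i.val → i.val < K + 16 → (μ ∘ σ) i = x := by
    intro i h1 h2
    apply hconst
    · rw [hσA, mem_clA]
      exact h2
    · intro h3
      have h4 : i = i1 := by
        have := congrArg σ h3
        simp only [σ, Equiv.swap_apply_left, Equiv.swap_apply_self] at this
        exact this
      have h5 : i.val = 0 := by rw [h4]
      omega
  -- collision
  let A : Finset (Fin (K + 16 + L)) :=
    Finset.univ.filter fun i => K ≤ i.val ∧ i.val < K + 16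
  have hA : A.card = 16 := by
    have : A = Finset.univ.image
        (fun a : Fin 16 => (⟨K + a.val, by omega⟩ : Fin (K + 16 + L))) := by
      ext i
      simp only [A, Finset.mem_filter, Finset.mem_univ, true_and, Finset.mem_image]
      constructor
      · rintro ⟨h1, h2⟩
        exact ⟨⟨i.val - K, by omega⟩, by ext; simp; omega⟩
      · rintro ⟨a, rfl⟩
        have := a.isLt
        simp
    rw [this, Finset.card_image_of_injective, Finset.card_univ, Fintype.card_fin]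
    intro a b hab
    simp only [Fin.mk.injEq] at hab
    ext
    omega
  obtain ⟨Q, hQ0, hQ⟩ := collide16 one_pos hv hvne (pim K L) A hA ⟨K, by omega⟩ (by
    intro i hi
    simp only [A, Finset.mem_filter, Finset.mem_univ, true_and] at hi
    ext
    simp only [pim]
    rw [if_neg (by omega), if_pos hi.2]) x hx (by
    intro i hi
    simp only [A, Finset.mem_filter, Finset.mem_univ, true_and] at hi
    exact (hmx i hi.1 hi.2).ge)
  obtain ⟨q0, hq0⟩ := Pool.Agent.helper7.SC.exists_avoid (T' ∪ {Q})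
    (hT'.union (Set.countable_singleton Q)) (by
      rintro f (hf | rfl)
      · exact hT'0 f hf
      · exact hQ0)
  let q : Fin (K + (L + 1)) → Fin 2 → ℂ := fun i k => q0 (i, k)
  have hqe : ∀ f : PtRing (K + (L + 1)), evP q f = eval q0 f := by
    intro f
    rfl
  obtain ⟨F', hF'0, hF'd, hF'm, hF'k⟩ := hQ q (by rw [hqe]; exact hq0 Q (Or.inr rfl))
  have hnef := hT'p q (fun f hf => by rw [hqe]; exact hq0 f (Or.inl hf)) F' hF'0
  rw [Nat.cast_one, one_mul] at hnef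
  -- the sums
  set D : ℝ := (wdeg 1 F : ℝ) with hD
  have hD0 : 0 < D := by
    rw [hD]
    exact_mod_cast Pool.Agent.helper7.SC.wdeg_pos one_pos hF
  set S : ℝ := ∑ i, wv (K + 16) v i * mult (p i) F with hS
  have hS0 : 0 ≤ S := Finset.sum_nonneg fun i _ => mul_nonneg (wv_nonneg h0 i) (Nat.cast_nonneg _)
  have hS' : S + 4 ≤ ∑ i, wv K (Fin.cons 4 v : Fin (L + 1) → ℝ) i * mult (q i) F' := by
    have e1 : S = ∑ i, wv (K + 16) v i * ((μ ∘ σ) i : ℝ) := by
      rw [hS, ← Equiv.sum_comp σ]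
      apply Finset.sum_congr rfl
      intro i _
      rw [hwσ]
      rfl
    rw [e1, sum_wv v (fun i => ((μ ∘ σ) i : ℝ)),
      sum_wv (Fin.cons 4 v : Fin (L + 1) → ℝ) (fun i => (mult (q i) F' : ℝ)),
      Fin.sum_univ_add,
      Fin.sum_univ_succ (fun i : Fin (L + 1) => (Fin.cons 4 v : Fin (L + 1) → ℝ) i *
        (mult (q (Fin.natAdd K i)) F' : ℝ))]
    simp only [Fin.cons_zero, Fin.cons_succ]
    have e2 : ∀ i : Fin K, ((μ ∘ σ) (Fin.castAdd L (Fin.castAdd 16 i)) : ℝ) ≤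
        (mult (q (Fin.castAdd (L + 1) i)) F' : ℝ) := by
      intro i
      have h1 := hF'm (Fin.castAdd L (Fin.castAdd 16 i))
      have h2 : pim K L (Fin.castAdd L (Fin.castAdd 16 i)) = Fin.castAdd (L + 1) i := by
        ext
        simp [pim]
      rw [h2] at h1
      exact_mod_cast h1
    have e3 : ∀ i : Fin 16, ((μ ∘ σ) (Fin.castAdd L (Fin.natAdd K i)) : ℝ) = x := by
      intro i
      rw [hmx _ (by simp) (by simp)]
    have e4 : ∀ i : Fin L, ((μ ∘ σ) (Fin.natAdd (K + 16) i) : ℝ) ≤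
        (mult (q (Fin.natAdd K i.succ)) F' : ℝ) := by
      intro i
      have h1 := hF'm (Fin.natAdd (K + 16) i)
      have h2 : pim K L (Fin.natAdd (K + 16) i) = Fin.natAdd K i.succ := by
        ext
        simp only [pim, Fin.val_natAdd, Fin.val_succ]
        rw [if_neg (by omega), if_neg (by omega)]
        omega
      rw [h2] at h1
      exact_mod_cast h1
    have e5 : (4 * (x : ℝ) + 1) ≤ (mult (q (Fin.natAdd K (0 : Fin (L + 1)))) F' : ℝ) := by
      have h2 : (⟨K, by omega⟩ : Fin (K + (L + 1))) = Fin.natAdd K (0 : Fin (L + 1)) := by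
        ext
        simp
      rw [h2] at hF'k
      exact_mod_cast hF'k
    have e6 := Finset.sum_le_sum (fun i (_ : i ∈ (Finset.univ : Finset (Fin K))) => e2 i)
    have e7 := Finset.sum_le_sum (fun i (_ : i ∈ (Finset.univ : Finset (Fin L))) =>
      mul_le_mul_of_nonneg_left (e4 i) (h0 i))
    have e8 : ∑ i : Fin 16, ((μ ∘ σ) (Fin.castAdd L (Fin.natAdd K i)) : ℝ) = 16 * x := by
      rw [Finset.sum_congr rfl fun i _ => e3 i]
      simp
    rw [e8]
    linarith
  have hcoll : z' * (S + 4) ^ 2 ≤ (z' + 1) * r * D ^ 2 := by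
    have e1 : (S + 4) ^ 2 ≤ (∑ i, wv K (Fin.cons 4 v : Fin (L + 1) → ℝ) i * mult (q i) F') ^ 2 :=
      pow_le_pow_left₀ (by linarith) hS' 2
    have e2 : (wdeg 1 F' : ℝ) ^ 2 ≤ D ^ 2 :=
      pow_le_pow_left₀ (by positivity) (by rw [hD]; exact_mod_cast hF'd) 2
    calc z' * (S + 4) ^ 2
        ≤ z' * (∑ i, wv K (Fin.cons 4 v : Fin (L + 1) → ℝ) i * mult (q i) F') ^ 2 :=
          mul_le_mul_of_nonneg_left e1 hz'.le
      _ ≤ (z' + 1) * r * (wdeg 1 F' : ℝ) ^ 2 := hnef
      _ ≤ (z' + 1) * r * D ^ 2 := mul_le_mul_of_nonneg_left e2 (by positivity)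
  have hx0 : (0 : ℝ) < x := by exact_mod_cast hx
  exact num_stepK hr' hz' hS0 hD0 hx0 hcon hcoll hb1 hb2

end Pool.Agent.KD
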